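import Pool.Agent.Lib.MP_1a91b9_nuI.Fa.FamR

/-!
# Transfer of the theorem on towers from the maximal orders to the other orders
-/

set_option autoImplicit false

namespace Pool.Agent.Lib.MP_1a91b9_nuI

open NumberField IsDedekindDomain WeierstrassCurve Module

/-- a point of finite order with coordinates `x`, `y` -/
def Tor {F : Type*} [Field F] [DecidableEq F] (W : WeierstrassCurve F) (x y : F) : Prop :=
  ∃ h : W.toAffine.Nonsingular x y, IsOfFinAddOrder (Affine.Point.some x y h)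

/-- the L-series has an entire continuation which is not zero at `1` -/
def Lne {N : Type*} [Field N] [NumberField N] (W : WeierstrassCurve N) : Prop :=
  ∃ g : ℂ → ℂ, Differentiable ℂ g ∧ (∀ s : ℂ, 3 / 2 < s.re → g s = W.LSeries s) ∧ g 1 ≠ 0

/-- the theorem on towers: `y² = x³ + A x + B`, the second class `y² = x³ + A₁ x + B₁`, the field
`ℚ(√d)`; in the case `sp`, `F₀ = K` there is no hypothesis on the L-function and the exceptional set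
is `S₀`. -/
def Thm (A B A₁ B₁ d : ℤ) (w : ℕ) (sp : Prop) (S₀ : Finset ℕ)
    (Q : ∀ (ℓ : ℕ) (N : Type) [Field N] [NumberField N], WeierstrassCurve N → Prop) : Prop :=
  ∀ (K N₀ F₀ L₀ : Type) [Field K] [NumberField K] [Field N₀] [NumberField N₀] [Field F₀]
    [NumberField F₀] [Field L₀] [NumberField L₀] [DecidableEq L₀] [Algebra K F₀] [Algebra N₀ F₀]
    [Algebra K L₀] [Algebra F₀ L₀] [IsScalarTower K F₀ L₀], finrank ℚ K = 2 →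
    (∃ z : K, z ^ 2 = (d : K)) →
    IntermediateField.adjoin N₀ (Set.range (algebraMap K F₀)) = ⊤ →
    ∀ x y : L₀, Tor (⟨0, 0, 0, ((A : ℤ) : L₀), ((B : ℤ) : L₀)⟩ : WeierstrassCurve L₀) x y →
    IntermediateField.adjoin K {x, y} = ⊤ →
    (¬ (finrank K F₀).Coprime w → ∀ v : HeightOneSpectrum (𝓞 F₀),
      ((6 * (4 * A ^ 3 + 27 * B ^ 2) : ℤ) : 𝓞 F₀) ∈ v.asIdeal →
        (v.asIdeal.ramificationIdx (𝓞 K)).Coprime w) →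
    (¬ (sp ∧ finrank K F₀ = 1) →
      Lne (⟨0, 0, 0, ((A : ℤ) : N₀), ((B : ℤ) : N₀)⟩ : WeierstrassCurve N₀)) →
    ∃ S : Finset ℕ, (sp ∧ finrank K F₀ = 1 → S = S₀) ∧
      ∀ ℓ : ℕ, ℓ.Prime → ℓ ∉ S → Tow ℓ A B A₁ B₁ w K F₀ (Q ℓ)

section
variable {a' b' a b : ℤ} {n : ℕ} {j' j d : ℤ}

/-- the torsion points -/
theorem Four.tors (h : Four a' b' a b n j' j d) (D₀ : ℤ) (hD₀ : D₀ ≠ 0) {K L' : Type} [Field K]
    [CharZero K] [Field L'] [Algebra K L'] [FiniteDimensional K L'] [DecidableEq L'] (x' y' : L')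
    (ht : Tor (⟨0, 0, 0, ((a' * D₀ ^ 2 : ℤ) : L'), ((b' * D₀ ^ 3 : ℤ) : L')⟩ :
      WeierstrassCurve L') x' y') (hL' : IntermediateField.adjoin K {x', y'} = ⊤) :
    ∃ (L : Type) (_ : Field L) (_ : Algebra K L) (_ : FiniteDimensional K L)
      (_ : DecidableEq L) (_ : L' →ₐ[K] L) (x y : L),
      Tor (⟨0, 0, 0, ((a * D₀ ^ 2 : ℤ) : L), ((b * D₀ ^ 3 : ℤ) : L)⟩ :
        WeierstrassCurve L) x y ∧ IntermediateField.adjoin K {x, y} = ⊤ := by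
  have hDK : (D₀ : K) ≠ 0 := by exact_mod_cast hD₀
  obtain ⟨i⟩ := h.isg' (D₀ : K) hDK
  have hn : n ≠ 0 := by
    rcases h.n23 with rfl | rfl <;> norm_num
  have e1 : ∀ (L : Type) [Field L] [Algebra K L] (p q : ℤ),
      (⟨0, 0, 0, ((p * D₀ ^ 2 : ℤ) : L), ((q * D₀ ^ 3 : ℤ) : L)⟩ : WeierstrassCurve L) =
        Affine.baseChange (cv ((p : K) * (D₀ : K) ^ 2) ((q : K) * (D₀ : K) ^ 3)) L := by
    intro L _ _ p q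
    show _ = (cv ((p : K) * (D₀ : K) ^ 2) ((q : K) * (D₀ : K) ^ 3)).map (algebraMap K L)
    rw [cv_map]
    simp only [map_mul, map_pow, map_intCast]
    push_cast
    rfl
  rw [e1 L'] at ht
  obtain ⟨hxy, ht⟩ := ht
  obtain ⟨L, i1, i2, i3, i4, φ, x, y, h5, h6, h7⟩ := i.lift hn x' y' hxy ht hL'
  refine ⟨L, i1, i2, i3, i4, φ, x, y, ?_, h7⟩
  rw [e1 L]
  exact ⟨h5, h6⟩

theorem Four.ramH (h : Four a' b' a b n j' j d) (D₀ : ℤ) {F₀ : Type} [Field F₀] [NumberField F₀]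
    (v : HeightOneSpectrum (𝓞 F₀))
    (hv : ((6 * (4 * (a * D₀ ^ 2) ^ 3 + 27 * (b * D₀ ^ 3) ^ 2) : ℤ) : 𝓞 F₀) ∈ v.asIdeal) :
    ((6 * (4 * (a' * D₀ ^ 2) ^ 3 + 27 * (b' * D₀ ^ 3) ^ 2) : ℤ) : 𝓞 F₀) ∈ v.asIdeal := by
  obtain ⟨c, hc, -⟩ := h.disc D₀
  have e : (6 * (4 * (a' * D₀ ^ 2) ^ 3 + 27 * (b' * D₀ ^ 3) ^ 2) : ℤ) =
      c * (6 * (4 * (a * D₀ ^ 2) ^ 3 + 27 * (b * D₀ ^ 3) ^ 2)) := by
    rw [hc]
    ring
  rw [e, Int.cast_mul]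
  exact Ideal.mul_mem_left _ _ hv

/-- the L-functions over `N₀` -/
theorem Four.lne (h : Four a' b' a b n j' j d) (D₀ : ℤ) {N : Type} [Field N] [NumberField N]
    (hL : Lne (⟨0, 0, 0, ((a' * D₀ ^ 2 : ℤ) : N), ((b' * D₀ ^ 3 : ℤ) : N)⟩ :
      WeierstrassCurve N)) :
    Lne (⟨0, 0, 0, ((a * D₀ ^ 2 : ℤ) : N), ((b * D₀ ^ 3 : ℤ) : N)⟩ : WeierstrassCurve N) := by
  have e1 : ∀ (p q : ℤ),
      (⟨0, 0, 0, ((p * D₀ ^ 2 : ℤ) : N), ((q * D₀ ^ 3 : ℤ) : N)⟩ : WeierstrassCurve N) =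
        cv ((p : N) * (D₀ : N) ^ 2) ((q : N) * (D₀ : N) ^ 3) := by
    intro p q
    push_cast
    rfl
  rw [e1] at hL ⊢
  obtain ⟨g, g1, g2, g3⟩ := hL
  exact ⟨g, g1, fun s hs => by rw [g2 s hs, lser_eq (h.lf (D₀ : N))], g3⟩

/-- the transfer, for any conclusion `Q` -/
theorem Four.thm (h : Four a' b' a b n j' j d) (D₀ : ℤ) (hD₀ : D₀ ≠ 0) (w : ℕ) (hw : 2 ∣ w)
    (sp sp' : Prop) (hsp : sp' → sp) (S₀ S₀' : Finset ℕ) (T : Finset ℕ)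
    (hS : sp' → S₀ ∪ T = S₀')
    (Q Q' : ∀ (ℓ : ℕ) (N : Type) [Field N] [NumberField N], WeierstrassCurve N → Prop)
    (hQ : ∀ ℓ : ℕ, ℓ.Prime → ℓ ∉ T → ∀ (N : Type) [Field N] [NumberField N]
      (W : WeierstrassCurve N) (D : N), D ≠ 0 →
      (∃ C : VariableChange N, C • W = cv (a' * D ^ 2) (b' * D ^ 3)) →
      (ℓ ≠ 2 → ∃ D₁ : ℤ, (D₁ = D₀ ∨ D₁ = D₀ * d) ∧
        ∃ C : VariableChange N, C • W = cv (a' * (D₁ : N) ^ 2) (b' * (D₁ : N) ^ 3)) →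
      Q ℓ N (cv (a * D ^ 2) (b * D ^ 3)) → Q' ℓ N W)
    (H : Thm (a * D₀ ^ 2) (b * D₀ ^ 3)
      (if b * D₀ ^ 3 = 0 then -4 * (a * D₀ ^ 2) else a * D₀ ^ 2 * d ^ 2)
      (b * D₀ ^ 3 * d ^ 3) d w sp S₀ Q) :
    Thm (a' * D₀ ^ 2) (b' * D₀ ^ 3)
      (if b' * D₀ ^ 3 = 0 then -4 * (a' * D₀ ^ 2) else a' * D₀ ^ 2 * d ^ 2)
      (b' * D₀ ^ 3 * d ^ 3) d w sp' S₀' Q' := by
  intro K N₀ F₀ L₀ _ _ _ _ _ _ _ _ _ _ _ _ _ _ hK hz hN x y ht hxy hr hg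
  obtain ⟨L, i1, i2, i3, i4, φ, x₁, y₁, ht₁, hxy₁⟩ := h.tors D₀ hD₀ x y ht hxy
  have i5 : NumberField L := NumberField.of_module_finite K L
  let aFL : Algebra F₀ L := ((φ : L₀ →+* L).comp (algebraMap F₀ L₀)).toAlgebra
  have i6 : IsScalarTower K F₀ L := by
    refine IsScalarTower.of_algebraMap_eq fun k => ?_
    show algebraMap K L k = φ (algebraMap F₀ L₀ (algebraMap K F₀ k))
    rw [← IsScalarTower.algebraMap_apply K F₀ L₀]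
    exact (φ.commutes k).symm
  obtain ⟨S, hS1, hS2⟩ := H K N₀ F₀ L hK hz hN x₁ y₁ ht₁ hxy₁
    (fun hn v hv => hr hn v (h.ramH D₀ v hv))
    (fun hn => h.lne D₀ (hg fun h1 => hn ⟨hsp h1.1, h1.2⟩))
  refine ⟨S ∪ T, fun h1 => by rw [hS1 ⟨hsp h1.1, h1.2⟩, hS h1.1], fun ℓ hℓ hℓS => ?_⟩
  rw [Finset.mem_union, not_or] at hℓS
  obtain ⟨z, hz⟩ := hz
  exact h.tow D₀ hD₀ ℓ w hℓ hw K F₀ hK z hz (Q ℓ) (Q' ℓ) (hQ ℓ hℓ hℓS.2) (hS2 ℓ hℓ hℓS.1)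

/-- the first question -/
theorem Four.thm1 (h : Four a' b' a b n j' j d) (D₀ : ℤ) (hD₀ : D₀ ≠ 0) (w : ℕ) (hw : 2 ∣ w)
    (sp sp' : Prop) (hsp : sp' → sp) (S₀ : Finset ℕ)
    (H : Thm (a * D₀ ^ 2) (b * D₀ ^ 3)
      (if b * D₀ ^ 3 = 0 then -4 * (a * D₀ ^ 2) else a * D₀ ^ 2 * d ^ 2)
      (b * D₀ ^ 3 * d ^ 3) d w sp S₀ (fun _ => Con1)) :
    Thm (a' * D₀ ^ 2) (b' * D₀ ^ 3)
      (if b' * D₀ ^ 3 = 0 then -4 * (a' * D₀ ^ 2) else a' * D₀ ^ 2 * d ^ 2)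
      (b' * D₀ ^ 3 * d ^ 3) d w sp' S₀ (fun _ => Con1) :=
  h.thm D₀ hD₀ w hw sp sp' hsp S₀ S₀ ∅ (fun _ => Finset.union_empty _) _ _
    (fun _ _ _ N _ _ W D hD hW _ hQ => h.q1 N W D hD hW hQ) H

/-- the conclusion for the second question -/
def Con2' (ℓ : ℕ) (N : Type) [Field N] [NumberField N] (W : WeierstrassCurve N) : Prop :=
  ∀ h : Fact ℓ.Prime, Con2 ℓ N W

/-- the second question -/
theorem Four.thm2 [Pool.Agent.Lib.MP_1a91b9_nuT.CD] (h : Four a' b' a b n j' j d) (D₀ : ℤ)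
    (hD₀ : D₀ ≠ 0) (w : ℕ) (hw : 2 ∣ w) (sp sp' : Prop) (hsp : sp' → sp) (S₀ S₀' : Finset ℕ)
    (hS : sp' → S₀ ∪ (6 * d * (4 * (a' * D₀ ^ 2) ^ 3 +
      27 * (b' * D₀ ^ 3) ^ 2)).natAbs.primeFactors = S₀')
    (H : Thm (a * D₀ ^ 2) (b * D₀ ^ 3)
      (if b * D₀ ^ 3 = 0 then -4 * (a * D₀ ^ 2) else a * D₀ ^ 2 * d ^ 2)
      (b * D₀ ^ 3 * d ^ 3) d w sp S₀ Con2') :
    Thm (a' * D₀ ^ 2) (b' * D₀ ^ 3)
      (if b' * D₀ ^ 3 = 0 then -4 * (a' * D₀ ^ 2) else a' * D₀ ^ 2 * d ^ 2)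
      (b' * D₀ ^ 3 * d ^ 3) d w sp' S₀' Con2' := by
  refine h.thm D₀ hD₀ w hw sp sp' hsp S₀ S₀' _ hS _ _ ?_ H
  intro ℓ hℓ hT N _ _ W D hD hW hW' hQ hf
  have hne : 6 * d * (4 * (a' * D₀ ^ 2) ^ 3 + 27 * (b' * D₀ ^ 3) ^ 2) ≠ 0 :=
    mul_ne_zero (mul_ne_zero (by norm_num) h.dne) (h.discne D₀ hD₀)
  have hg : ¬ (ℓ : ℤ) ∣ 6 * d * (4 * (a' * D₀ ^ 2) ^ 3 + 27 * (b' * D₀ ^ 3) ^ 2) := by
    intro h1
    exact hT (Nat.mem_primeFactors.2 ⟨hℓ, Int.natCast_dvd.1 h1, Int.natAbs_ne_zero.2 hne⟩)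
  have h2 : ℓ ≠ 2 := by
    rintro rfl
    exact hg ⟨3 * d * (4 * (a' * D₀ ^ 2) ^ 3 + 27 * (b' * D₀ ^ 3) ^ 2), by push_cast; ring⟩
  exact h.q2 D₀ hD₀ hg N W D hD hW (hW' h2) (hQ hf)

end

end Pool.Agent.Lib.MP_1a91b9_nuI
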