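import Pool.Agent.Lib.MP_1a91b9_nuI.Fa.FamV
import Pool.Agent.Lib.MP_1a91b9_nuI.Ta.TowW

/-!
# Theorems on towers with ramification above ordinary prime numbers: from the nine maximal orders to the
thirteen orders
-/

set_option autoImplicit false

namespace Pool.Agent.Lib.MP_1a91b9_nuI

open NumberField IsDedekindDomain WeierstrassCurve Module

/-- The condition on the ramification and the numbers of points; `d` is the discriminant of the field of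
complex multiplication, ramification above `ℓ` is permitted if `ℓ ∉ T` splits in `ℚ(√d)`. -/
def RamW (ℓ : ℕ) (T : Finset ℕ) (A B d : ℤ) (F₀ L : Type) [Field F₀] [NumberField F₀] [Field L]
    [NumberField L] [Algebra F₀ L] : Prop :=
  ∀ (v : HeightOneSpectrum (𝓞 F₀)) (w : HeightOneSpectrum (𝓞 L)),
    v.asIdeal.map (algebraMap (𝓞 F₀) (𝓞 L)) ≤ w.asIdeal ^ 2 →
      ((ℓ : 𝓞 F₀) ∈ v.asIdeal → ℓ ∉ T ∧ ℓ ≠ 2 ∧ IsSquare ((d : ℤ) : ZMod ℓ)) ∧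
      (((6 * (4 * A ^ 3 + 27 * B ^ 2) : ℤ) : 𝓞 F₀) ∉ v.asIdeal →
        ¬ ℓ ∣ Nat.card (⟨0, 0, 0, ((A : ℤ) : 𝓞 F₀ ⧸ v.asIdeal), ((B : ℤ) : 𝓞 F₀ ⧸ v.asIdeal)⟩ :
          WeierstrassCurve (𝓞 F₀ ⧸ v.asIdeal)).toAffine.Point)

/-- The statement for towers and all the forms `W` of the curve `y² = x³ + A x + B`. -/
def TowW (ℓ : ℕ) (T : Finset ℕ) (A B d : ℤ) (F₀ : Type) [Field F₀] [NumberField F₀]
    (Q : ∀ (N : Type) [Field N] [NumberField N], WeierstrassCurve N → Prop) : Prop :=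
  ∀ (n : ℕ) (N L M : Type) [Field N] [NumberField N] [Field L] [NumberField L] [Field M]
    [NumberField M] [Algebra N L] [Algebra F₀ L] [Algebra L M] [Algebra F₀ M]
    [IsScalarTower F₀ L M] [IsGalois F₀ M], finrank F₀ M = ℓ ^ n → RamW ℓ T A B d F₀ L →
  ∀ (W : WeierstrassCurve N) (C : VariableChange L),
    C • W.baseChange L = ⟨0, 0, 0, ((A : ℤ) : L), ((B : ℤ) : L)⟩ → Q N W

/-- The theorem on towers for `y² = x³ + A x + B`, the field `ℚ(√d)` and all the forms. -/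
def ThmW (A B d : ℤ)
    (Q : ∀ (_ℓ : ℕ) (N : Type) [Field N] [NumberField N], WeierstrassCurve N → Prop) : Prop :=
  ∀ (K N₀ F₀ L₀ : Type) [Field K] [NumberField K] [Field N₀] [NumberField N₀] [Field F₀]
    [NumberField F₀] [Field L₀] [NumberField L₀] [DecidableEq L₀] [Algebra K F₀] [Algebra N₀ F₀]
    [Algebra K L₀] [Algebra F₀ L₀] [IsScalarTower K F₀ L₀], finrank ℚ K = 2 →
    (∃ z : K, z ^ 2 = (d : K)) →
    IntermediateField.adjoin N₀ (Set.range (algebraMap K F₀)) = ⊤ →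
    ∀ x y : L₀, Tor (⟨0, 0, 0, ((A : ℤ) : L₀), ((B : ℤ) : L₀)⟩ : WeierstrassCurve L₀) x y →
    IntermediateField.adjoin K {x, y} = ⊤ →
    Lne (⟨0, 0, 0, ((A : ℤ) : N₀), ((B : ℤ) : N₀)⟩ : WeierstrassCurve N₀) →
    ∃ S : Finset ℕ, ∀ ℓ : ℕ, ℓ.Prime → ℓ ∉ S → TowW ℓ ∅ A B d F₀ (Q ℓ)

/-- The theorem on towers; in the case `sp`, `F₀ = K` there is no hypothesis on the L-function and the
exceptional set is `S₀`. Ramification above the prime numbers of `T` is not permitted. -/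
def ThmX (A B d : ℤ) (sp : Prop) (S₀ : Finset ℕ)
    (Q : ∀ (_ℓ : ℕ) (N : Type) [Field N] [NumberField N], WeierstrassCurve N → Prop) : Prop :=
  ∀ (K N₀ F₀ L₀ : Type) [Field K] [NumberField K] [Field N₀] [NumberField N₀] [Field F₀]
    [NumberField F₀] [Field L₀] [NumberField L₀] [DecidableEq L₀] [Algebra K F₀] [Algebra N₀ F₀]
    [Algebra K L₀] [Algebra F₀ L₀] [IsScalarTower K F₀ L₀], finrank ℚ K = 2 →
    (∃ z : K, z ^ 2 = (d : K)) →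
    IntermediateField.adjoin N₀ (Set.range (algebraMap K F₀)) = ⊤ →
    ∀ x y : L₀, Tor (⟨0, 0, 0, ((A : ℤ) : L₀), ((B : ℤ) : L₀)⟩ : WeierstrassCurve L₀) x y →
    IntermediateField.adjoin K {x, y} = ⊤ →
    (¬ (sp ∧ finrank K F₀ = 1) →
      Lne (⟨0, 0, 0, ((A : ℤ) : N₀), ((B : ℤ) : N₀)⟩ : WeierstrassCurve N₀)) →
    ∃ S T : Finset ℕ, (sp ∧ finrank K F₀ = 1 → S = S₀) ∧
      ∀ ℓ : ℕ, ℓ.Prime → ℓ ∉ S → TowW ℓ T A B d F₀ (Q ℓ)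

theorem ThmW.imp {A B d : ℤ}
    {Q Q' : ∀ (_ℓ : ℕ) (N : Type) [Field N] [NumberField N], WeierstrassCurve N → Prop}
    (h : ∀ (ℓ : ℕ) (N : Type) [Field N] [NumberField N] (W : WeierstrassCurve N), Q ℓ N W →
      Q' ℓ N W) (H : ThmW A B d Q) : ThmW A B d Q' := by
  intro K N₀ F₀ L₀ _ _ _ _ _ _ _ _ _ _ _ _ _ _ hK hz hN x y ht hxy hg
  obtain ⟨S, hS⟩ := H K N₀ F₀ L₀ hK hz hN x y ht hxy hg
  refine ⟨S, fun ℓ hℓ hℓS => ?_⟩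
  intro n N L M _ _ _ _ _ _ _ _ _ _ _ _ hM hR W C hC
  exact h ℓ N W (hS ℓ hℓ hℓS n N L M hM hR W C hC)

section
variable {a' b' a b : ℤ} {n : ℕ} {j' j d : ℤ}

/-- the conditions for the curve and the isogenous curve -/
theorem Four.ramW (h : Four a' b' a b n j' j d) (D : ℤ) {ℓ : ℕ} {T : Finset ℕ} {F₀ L : Type}
    [Field F₀] [NumberField F₀] [Field L] [NumberField L] [Algebra F₀ L]
    (hR : RamW ℓ T (a' * D ^ 2) (b' * D ^ 3) d F₀ L) :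
    RamW ℓ T (a * D ^ 2) (b * D ^ 3) d F₀ L := by
  intro v w hvw
  obtain ⟨h1, h2⟩ := hR v w hvw
  refine ⟨h1, fun h3 => ?_⟩
  obtain ⟨c, hc, hc6⟩ := h.disc D
  have hv : v.asIdeal.IsPrime := v.isPrime
  have h6 : (6 : 𝓞 F₀) ∉ v.asIdeal := by
    intro h6
    apply h3
    push_cast
    exact Ideal.mul_mem_right _ _ h6
  have h3' : ((4 * (a * D ^ 2) ^ 3 + 27 * (b * D ^ 3) ^ 2 : ℤ) : 𝓞 F₀) ∉ v.asIdeal := by
    intro h4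
    apply h3
    rw [Int.cast_mul]
    exact Ideal.mul_mem_left _ _ h4
  have hcv : (c : 𝓞 F₀) ∉ v.asIdeal := by
    intro h4
    obtain ⟨e, he⟩ := hc6
    apply h6
    apply hv.mem_of_pow_mem 4
    have h5 : (6 : 𝓞 F₀) ^ 4 = (c : 𝓞 F₀) * (e : 𝓞 F₀) := by
      exact_mod_cast congrArg (Int.cast : ℤ → 𝓞 F₀) he
    rw [h5]
    exact Ideal.mul_mem_right _ _ h4
  have h4 : ((4 * (a' * D ^ 2) ^ 3 + 27 * (b' * D ^ 3) ^ 2 : ℤ) : 𝓞 F₀) ∉ v.asIdeal := by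
    rw [hc, Int.cast_mul]
    intro h5
    rcases hv.mem_or_mem h5 with h7 | h7
    · exact hcv h7
    · exact h3' h7
  have h5 : ((6 * (4 * (a' * D ^ 2) ^ 3 + 27 * (b' * D ^ 3) ^ 2) : ℤ) : 𝓞 F₀) ∉ v.asIdeal := by
    rw [Int.cast_mul]
    intro h5
    rcases hv.mem_or_mem h5 with h7 | h7
    · exact h6 (by exact_mod_cast h7)
    · exact h4 h7
  have h8 := h2 h5
  have hm : v.asIdeal.IsMaximal := v.isMaximal
  let _ : Field (𝓞 F₀ ⧸ v.asIdeal) := Ideal.Quotient.field _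
  have i2 : Finite (𝓞 F₀ ⧸ v.asIdeal) := Ideal.finiteQuotientOfFreeOfNeBot _ v.ne_bot
  have h6' : (6 : 𝓞 F₀ ⧸ v.asIdeal) ≠ 0 := by
    intro h0
    apply h6
    rw [← Ideal.Quotient.eq_zero_iff_mem, map_ofNat]
    exact h0
  have hΔ : 4 * ((a' : 𝓞 F₀ ⧸ v.asIdeal) * (D : 𝓞 F₀ ⧸ v.asIdeal) ^ 2) ^ 3 +
      27 * ((b' : 𝓞 F₀ ⧸ v.asIdeal) * (D : 𝓞 F₀ ⧸ v.asIdeal) ^ 3) ^ 2 ≠ 0 := by
    intro h0
    apply h4
    rw [← Ideal.Quotient.eq_zero_iff_mem, map_intCast]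
    exact_mod_cast h0
  have h9 := h.card h6' (D : 𝓞 F₀ ⧸ v.asIdeal) hΔ
  have e1 : (⟨0, 0, 0, ((a' * D ^ 2 : ℤ) : 𝓞 F₀ ⧸ v.asIdeal),
      ((b' * D ^ 3 : ℤ) : 𝓞 F₀ ⧸ v.asIdeal)⟩ : WeierstrassCurve (𝓞 F₀ ⧸ v.asIdeal)) =
      cv ((a' : 𝓞 F₀ ⧸ v.asIdeal) * (D : 𝓞 F₀ ⧸ v.asIdeal) ^ 2)
        ((b' : 𝓞 F₀ ⧸ v.asIdeal) * (D : 𝓞 F₀ ⧸ v.asIdeal) ^ 3) := by
    push_cast
    rfl
  have e2 : (⟨0, 0, 0, ((a * D ^ 2 : ℤ) : 𝓞 F₀ ⧸ v.asIdeal),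
      ((b * D ^ 3 : ℤ) : 𝓞 F₀ ⧸ v.asIdeal)⟩ : WeierstrassCurve (𝓞 F₀ ⧸ v.asIdeal)) =
      cv ((a : 𝓞 F₀ ⧸ v.asIdeal) * (D : 𝓞 F₀ ⧸ v.asIdeal) ^ 2)
        ((b : 𝓞 F₀ ⧸ v.asIdeal) * (D : 𝓞 F₀ ⧸ v.asIdeal) ^ 3) := by
    push_cast
    rfl
  rw [e1] at h8
  rw [e2, ← h9]
  exact h8

/-- the transfer -/
theorem Four.thmW (h : Four a' b' a b n j' j d) (D₀ : ℤ) (hD₀ : D₀ ≠ 0)
    (T : ∀ (F₀ : Type) [Field F₀] [NumberField F₀], Finset ℕ)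
    (Q Q' : ∀ (_ℓ : ℕ) (N : Type) [Field N] [NumberField N], WeierstrassCurve N → Prop)
    (hQ : ∀ (F₀ : Type) [Field F₀] [NumberField F₀] (ℓ : ℕ), ℓ.Prime → ℓ ∉ T F₀ →
      ∀ (m : ℕ) (N L M : Type) [Field N] [NumberField N] [Field L] [NumberField L] [Field M]
      [NumberField M] [Algebra N L] [Algebra F₀ L] [Algebra L M] [Algebra F₀ M]
      [IsScalarTower F₀ L M] [IsGalois F₀ M], finrank F₀ M = ℓ ^ m →
      ∀ (W : WeierstrassCurve N) (D : N), D ≠ 0 →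
      (∃ C : VariableChange N, C • W = cv (a' * D ^ 2) (b' * D ^ 3)) →
      (∃ C : VariableChange L, C • (cv (a' * D ^ 2) (b' * D ^ 3)).baseChange L =
        cv ((a' * D₀ ^ 2 : ℤ) : L) ((b' * D₀ ^ 3 : ℤ) : L)) →
      Q ℓ N (cv (a * D ^ 2) (b * D ^ 3)) → Q' ℓ N W)
    (H : ThmW (a * D₀ ^ 2) (b * D₀ ^ 3) d Q) :
    ThmW (a' * D₀ ^ 2) (b' * D₀ ^ 3) d Q' := by
  intro K N₀ F₀ L₀ _ _ _ _ _ _ _ _ _ _ _ _ _ _ hK hz hN x y ht hxy hg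
  obtain ⟨L, i1, i2, i3, i4, φ, x₁, y₁, ht₁, hxy₁⟩ := h.tors D₀ hD₀ x y ht hxy
  have i5 : NumberField L := NumberField.of_module_finite K L
  let aFL : Algebra F₀ L := ((φ : L₀ →+* L).comp (algebraMap F₀ L₀)).toAlgebra
  have i6 : IsScalarTower K F₀ L := by
    refine IsScalarTower.of_algebraMap_eq fun k => ?_
    show algebraMap K L k = φ (algebraMap F₀ L₀ (algebraMap K F₀ k))
    rw [← IsScalarTower.algebraMap_apply K F₀ L₀]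
    exact (φ.commutes k).symm
  obtain ⟨S, hS⟩ := H K N₀ F₀ L hK hz hN x₁ y₁ ht₁ hxy₁ (h.lne D₀ hg)
  refine ⟨S ∪ T F₀, fun ℓ hℓ hℓS => ?_⟩
  rw [Finset.mem_union, not_or] at hℓS
  intro m N L' M _ _ _ _ _ _ _ _ _ _ _ _ hM hR W C hC
  have hDL : (D₀ : L') ≠ 0 := by exact_mod_cast hD₀
  have hC' : C • W.baseChange L' = cv ((a' : L') * (D₀ : L') ^ 2) ((b' : L') * (D₀ : L') ^ 3) := by
    rw [hC]
    push_cast
    rfl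
  obtain ⟨D, hD, ⟨C₁, hC₁⟩, -, C₂, hC₂⟩ := h.cls W C (D₀ : L') hDL hC'
  refine hQ F₀ ℓ hℓ hℓS.2 m N L' M hM W D hD ⟨C₁, hC₁⟩ ?_
    (hS ℓ hℓ hℓS.1 m N L' M hM (h.ramW D₀ hR) _ C₂ ?_)
  · refine ⟨C * (C₁.map (algebraMap N L'))⁻¹, ?_⟩
    have e : (cv ((a' : N) * D ^ 2) (b' * D ^ 3)).baseChange L' =
        C₁.map (algebraMap N L') • W.baseChange L' := by
      rw [← hC₁]
      exact (bc_change W (C₁ • W) C₁ rfl L').symm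
    rw [e, mul_smul, inv_smul_smul]
    exact hC
  · rw [hC₂]
    push_cast
    rfl

/-- the first question -/
theorem Four.thmW1 (h : Four a' b' a b n j' j d) (D₀ : ℤ) (hD₀ : D₀ ≠ 0)
    (H : ThmW (a * D₀ ^ 2) (b * D₀ ^ 3) d (fun _ => Con1)) :
    ThmW (a' * D₀ ^ 2) (b' * D₀ ^ 3) d (fun _ => Con1) :=
  h.thmW D₀ hD₀ (fun _ _ _ => ∅) (fun _ => Con1) (fun _ => Con1)
    (fun _ _ _ _ _ _ _ N _ _ _ _ _ _ _ _ _ _ _ _ _ _ _ W D hD hW _ hQ => h.q1 N W D hD hW hQ) H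

/-- the second question -/
theorem Four.thmW2 [Pool.Agent.Lib.MP_1a91b9_nuT.CD] (h : Four a' b' a b n j' j d) (D₀ : ℤ)
    (hD₀ : D₀ ≠ 0) (H : ThmW (a * D₀ ^ 2) (b * D₀ ^ 3) d Con2') :
    ThmW (a' * D₀ ^ 2) (b' * D₀ ^ 3) d Con2' := by
  refine h.thmW D₀ hD₀ (fun F₀ _ _ => (6 * discr F₀ * (4 * (a' * D₀ ^ 2) ^ 3 +
    27 * (b' * D₀ ^ 3) ^ 2)).natAbs.primeFactors) Con2' Con2' ?_ H
  intro F₀ _ _ ℓ hℓ hT m N L M _ _ _ _ _ _ _ _ _ _ _ _ hM W D hD hW hW' hQ hf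
  have hne : 6 * discr F₀ * (4 * (a' * D₀ ^ 2) ^ 3 + 27 * (b' * D₀ ^ 3) ^ 2) ≠ 0 :=
    mul_ne_zero (mul_ne_zero (by norm_num) (discr_ne_zero F₀)) (h.discne D₀ hD₀)
  have hg : ¬ (ℓ : ℤ) ∣ 6 * discr F₀ * (4 * (a' * D₀ ^ 2) ^ 3 + 27 * (b' * D₀ ^ 3) ^ 2) := by
    intro h1
    exact hT (Nat.mem_primeFactors.2 ⟨hℓ, Int.natCast_dvd.1 h1, Int.natAbs_ne_zero.2 hne⟩)
  have hg6 : ¬ (ℓ : ℤ) ∣ 6 * (4 * (a' * D₀ ^ 2) ^ 3 + 27 * (b' * D₀ ^ 3) ^ 2) := by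
    rintro ⟨c, hc⟩
    exact hg ⟨discr F₀ * c, by linear_combination discr F₀ * hc⟩
  have hgd : ¬ (ℓ : ℤ) ∣ discr F₀ := by
    rintro ⟨c, hc⟩
    exact hg ⟨6 * c * (4 * (a' * D₀ ^ 2) ^ 3 + 27 * (b' * D₀ ^ 3) ^ 2), by rw [hc]; ring⟩
  have h2 : ℓ ≠ 2 := by
    rintro rfl
    exact hg6 ⟨3 * (4 * (a' * D₀ ^ 2) ^ 3 + 27 * (b' * D₀ ^ 3) ^ 2), by push_cast; ring⟩
  have h3 : ℓ ≠ 3 := by
    rintro rfl
    exact hg6 ⟨2 * (4 * (a' * D₀ ^ 2) ^ 3 + 27 * (b' * D₀ ^ 3) ^ 2), by push_cast; ring⟩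
  have h4 : ℓ ≠ 4 := by
    rintro rfl
    exact absurd hℓ (by decide)
  have h5 : 5 ≤ ℓ := by
    have := hℓ.two_le
    omega
  obtain ⟨C₂, hC₂⟩ := hW'
  refine h.q2g h5 N W D hD hW (fun v hv => ?_) (hQ hf)
  exact good_tower_w (M := M) hℓ h5 hM (not_mem_sq hℓ hgd) (h.jeq D) hg6 C₂ hC₂ v hv

end

/-- the theorem for the thirteen orders, first question -/
theorem allW1 (H : ∀ A B J d : ℤ, 4 * A ^ 3 + 27 * B ^ 2 ≠ 0 →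
      6912 * A ^ 3 = J * (4 * A ^ 3 + 27 * B ^ 2) → (J, d) ∈ nine →
      ThmW A B d (fun _ => Con1))
    (A B J d : ℤ) (hAB : 4 * A ^ 3 + 27 * B ^ 2 ≠ 0)
    (hj : 6912 * A ^ 3 = J * (4 * A ^ 3 + 27 * B ^ 2)) (hJ : (J, d) ∈ thirteen) :
    ThmW A B d (fun _ => Con1) := by
  rcases thirteen_cases hJ with h9 | ⟨a', b', a, b, n, j, h⟩
  · exact H A B J d hAB hj h9
  · obtain ⟨D, hD, rfl, rfl⟩ := h.int A B hAB hj
    exact h.thmW1 D hD (H (a * D ^ 2) (b * D ^ 3) j d (h.discV D hD) (h.jV D) h.jnine)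

/-- the theorem for the thirteen orders, second question -/
theorem allW2 [Pool.Agent.Lib.MP_1a91b9_nuT.CD] (H : ∀ A B J d : ℤ, 4 * A ^ 3 + 27 * B ^ 2 ≠ 0 →
      6912 * A ^ 3 = J * (4 * A ^ 3 + 27 * B ^ 2) → (J, d) ∈ nine → ThmW A B d Con2')
    (A B J d : ℤ) (hAB : 4 * A ^ 3 + 27 * B ^ 2 ≠ 0)
    (hj : 6912 * A ^ 3 = J * (4 * A ^ 3 + 27 * B ^ 2)) (hJ : (J, d) ∈ thirteen) :
    ThmW A B d Con2' := by
  rcases thirteen_cases hJ with h9 | ⟨a', b', a, b, n, j, h⟩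
  · exact H A B J d hAB hj h9
  · obtain ⟨D, hD, rfl, rfl⟩ := h.int A B hAB hj
    exact h.thmW2 D hD (H (a * D ^ 2) (b * D ^ 3) j d (h.discV D hD) (h.jV D) h.jnine)

/-- the base field itself -/
theorem lne_base {A B : ℤ} {N₀ F₀ : Type} [Field N₀] [NumberField N₀] [Field F₀] [NumberField F₀]
    [Algebra N₀ F₀] {ℓ : ℕ} (H : TowV ℓ A B F₀ (fun N _ _ W => Con1 N W)) :
    Lne (⟨0, 0, 0, ((A : ℤ) : N₀), ((B : ℤ) : N₀)⟩ : WeierstrassCurve N₀) := by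
  have h1 := H 0 N₀ F₀ F₀ (by rw [finrank_self, pow_zero]) ?_
    (⟨0, 0, 0, ((A : ℤ) : N₀), ((B : ℤ) : N₀)⟩ : WeierstrassCurve N₀) 1 ?_
  · exact h1.1
  · intro v w hvw
    exfalso
    have h2 : ∀ x ∈ v.asIdeal, x ∈ w.asIdeal ^ 2 := fun x hx => hvw (Ideal.mem_map_of_mem _ hx)
    have h3 : v.asIdeal ≤ w.asIdeal := fun x hx => Ideal.pow_le_self two_ne_zero (h2 x hx)
    have h4 : v.asIdeal = w.asIdeal := v.isMaximal.eq_of_le w.isPrime.ne_top h3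
    obtain ⟨π, hπ⟩ := v.intValuation_exists_uniformizer
    have h5 : π ∈ v.asIdeal := by
      have h6 := (v.intValuation_le_pow_iff_mem π 1).1 (by
        rw [hπ]
        exact le_of_eq rfl)
      rwa [pow_one] at h6
    have h6 := h2 π h5
    rw [← h4] at h6
    have h7 := (v.intValuation_le_pow_iff_mem π 2).2 h6
    rw [hπ, WithZero.exp_le_exp] at h7
    norm_num at h7
  · rw [one_smul]
    exact (cv_map _ _ _).trans (by rw [map_intCast, map_intCast]; rfl)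

/-- **The combination of the two theorems.** -/
theorem thmX_of {A B d : ℤ} {sp : Prop} {S₀ S₁ : Finset ℕ}
    {Q : ∀ (_ℓ : ℕ) (N : Type) [Field N] [NumberField N], WeierstrassCurve N → Prop}
    (H1 : ThmV A B d sp S₁ (fun _ => Con1)) (HV : ThmV A B d sp S₀ Q) (HW : ThmW A B d Q) :
    ThmX A B d sp S₀ Q := by
  intro K N₀ F₀ L₀ _ _ _ _ _ _ _ _ _ _ _ _ _ _ hK hz hN x y ht hxy hg
  obtain ⟨S₂, -, hS₂⟩ := H1 K N₀ F₀ L₀ hK hz hN x y ht hxy hg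
  obtain ⟨ℓ₀, hℓ₀, hℓ₀S⟩ : ∃ ℓ₀ : ℕ, ℓ₀.Prime ∧ ℓ₀ ∉ S₂ := by
    obtain ⟨p, hp1, hp2⟩ := Nat.exists_infinite_primes (S₂.sup id + 1)
    refine ⟨p, hp2, fun h => ?_⟩
    have := Finset.le_sup (f := id) h
    simp only [id] at this
    omega
  have hL : Lne (⟨0, 0, 0, ((A : ℤ) : N₀), ((B : ℤ) : N₀)⟩ : WeierstrassCurve N₀) :=
    lne_base (hS₂ ℓ₀ hℓ₀ hℓ₀S)
  obtain ⟨S, hS1, hS2⟩ := HV K N₀ F₀ L₀ hK hz hN x y ht hxy hg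
  obtain ⟨T, hT⟩ := HW K N₀ F₀ L₀ hK hz hN x y ht hxy hL
  refine ⟨S, T, hS1, fun ℓ hℓ hℓS => ?_⟩
  intro n N L M _ _ _ _ _ _ _ _ _ _ _ _ hM hR W C hC
  by_cases h : ∃ (v : HeightOneSpectrum (𝓞 F₀)) (w : HeightOneSpectrum (𝓞 L)),
      v.asIdeal.map (algebraMap (𝓞 F₀) (𝓞 L)) ≤ w.asIdeal ^ 2 ∧ (ℓ : 𝓞 F₀) ∈ v.asIdeal
  · obtain ⟨v, w, hvw, hv⟩ := h
    have hℓT : ℓ ∉ T := ((hR v w hvw).1 hv).1
    refine hT ℓ hℓ hℓT n N L M hM (fun v w hvw => ⟨fun hv => ⟨Finset.notMem_empty _,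
      ((hR v w hvw).1 hv).2⟩, (hR v w hvw).2⟩) W C hC
  · refine hS2 ℓ hℓ hℓS n N L M hM (fun v w hvw => ⟨fun hv => h ⟨v, w, hvw, hv⟩,
      (hR v w hvw).2⟩) W C hC

end Pool.Agent.Lib.MP_1a91b9_nuI
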