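import Pool.Agent.Lib.MP_1a91b9_nuT.DW.Alg
import Pool.Agent.Lib.MP_1a91b9_nuT.TW.Core

/-!
# Squares in extensions of odd degree of a field containing a quadratic field
-/

set_option autoImplicit false

namespace Pool.Agent.Lib.MP_1a91b9_nuI

open Module
open Pool.Agent.Lib.MP_1a91b9_nuT.DW (exists_sq_odd sq_cases)
open Pool.Agent.Lib.MP_1a91b9_nuT.TW (quadIF mem_quadIF)

theorem quad_coords {K : Type*} [Field K] [CharZero K] (hK : finrank ℚ K = 2) (z : K)
    (d : ℤ) (hz : z ^ 2 = (d : K)) (hd : ∀ q : ℚ, q ^ 2 ≠ (d : ℚ)) (t : K) :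
    ∃ a b : ℚ, t = (a : K) + (b : K) * z := by
  have hfin : FiniteDimensional ℚ K := FiniteDimensional.of_finrank_eq_succ hK
  have hz' : ∀ q : ℚ, (q : K) ≠ z := by
    intro q hq
    apply hd q
    rw [← hq] at hz
    exact_mod_cast hz
  have hli : LinearIndependent ℚ ![(1 : K), z] := by
    rw [LinearIndependent.pair_iff]
    intro s r h
    have hr : r = 0 := by
      by_contra hr
      apply hz' (-s / r)
      have hr' : (r : K) ≠ 0 := by exact_mod_cast hr
      rw [Rat.smul_def, Rat.smul_def] at h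
      push_cast
      field_simp
      linear_combination -h
    rw [hr, zero_smul, add_zero, Rat.smul_def, mul_one] at h
    exact ⟨by exact_mod_cast h, hr⟩
  have htop := hli.span_eq_top_of_card_eq_finrank (by rw [hK]; simp)
  have ht : t ∈ Submodule.span ℚ (Set.range ![(1 : K), z]) := by
    rw [htop]
    exact Submodule.mem_top
  rw [Matrix.range_cons, Matrix.range_cons, Matrix.range_empty, Set.union_empty,
    Set.singleton_union, Submodule.mem_span_pair] at ht
  obtain ⟨a, b, rfl⟩ := ht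
  exact ⟨a, b, by rw [Rat.smul_def, Rat.smul_def, mul_one]⟩

/-- an element which is a square in an extension of odd degree -/
theorem sq_class {K N M : Type*} [Field K] [CharZero K] [Field N] [CharZero N] [Field M]
    [CharZero M] [Algebra N M] [Algebra K M] [FiniteDimensional N M] [FiniteDimensional K M]
    (hK : finrank ℚ K = 2) (z : K) (d : ℤ) (hz : z ^ 2 = (d : K)) (hd : ∀ q : ℚ, q ^ 2 ≠ (d : ℚ))
    (h2 : ¬ 2 ∣ finrank K M) (e : N) (x : M) (hx : x ^ 2 = algebraMap N M e) :
    (∃ y : N, e = y ^ 2) ∨ ∃ y : N, e = d * y ^ 2 := by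
  obtain ⟨w, hw⟩ : ∃ w : M, w = algebraMap K M z := ⟨_, rfl⟩
  have hw2 : w ^ 2 = (d : M) := by rw [hw, ← map_pow, hz, map_intCast]
  obtain ⟨F, hF⟩ : ∃ F, F = quadIF N M w hw2 := ⟨_, rfl⟩
  have hKF : ∀ k : K, algebraMap K M k ∈ F := by
    intro k
    obtain ⟨a, b, rfl⟩ := quad_coords hK z d hz hd k
    rw [hF, mem_quadIF]
    refine ⟨(a : N), (b : N), ?_⟩
    rw [map_add, map_mul, map_ratCast, map_ratCast, map_ratCast, map_ratCast, hw]
  have hodd : ¬ 2 ∣ finrank F M := by
    obtain ⟨φ, hφ⟩ : ∃ φ : K →+* F, ∀ t : K, ((φ t : F) : M) = algebraMap K M t :=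
      ⟨(algebraMap K M).codRestrict F.toSubalgebra.toSubring hKF, fun t => rfl⟩
    let algKF : Algebra K F := φ.toAlgebra
    have ht : IsScalarTower K F M := IsScalarTower.of_algebraMap_eq fun t => (hφ t).symm
    intro h
    apply h2
    rw [← Module.finrank_mul_finrank K F M]
    exact Dvd.dvd.mul_left h _
  obtain ⟨y, hy⟩ := exists_sq_odd (N := F) (L := M) hodd (algebraMap N F e) x hx
  have hy2 : y ^ 2 = algebraMap N F e := by
    apply (algebraMap F M).injective
    rw [map_pow, hy, hx]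
    rfl
  have hwF : w ∈ F := by
    rw [hF, mem_quadIF]
    exact ⟨0, 1, by simp⟩
  have hgen : ∀ t : F, ∃ a b : N, t = algebraMap N F a + algebraMap N F b * ⟨w, hwF⟩ := by
    intro t
    have ht : (t : M) ∈ quadIF N M w hw2 := by
      rw [← hF]
      exact t.2
    obtain ⟨a, b, hab⟩ := (mem_quadIF w hw2 _).1 ht
    exact ⟨a, b, Subtype.ext hab⟩
  by_cases hwN : ∃ t : N, algebraMap N M t = w
  · left
    obtain ⟨t, ht⟩ := hwN
    obtain ⟨a, b, hab⟩ := hgen y
    refine ⟨a + b * t, ?_⟩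
    have e1 : x = algebraMap N M a + algebraMap N M b * w := by
      rw [← hy, hab]
      rfl
    apply (algebraMap N M).injective
    rw [← hx, e1, map_pow, map_add, map_mul, ht]
  · refine sq_cases (D := d) (N := N) (F := F) ⟨w, hwF⟩ ?_ ?_ hgen y e hy2
    · apply Subtype.ext
      exact hw2
    · intro t ht
      exact hwN ⟨t, congrArg Subtype.val ht⟩

end Pool.Agent.Lib.MP_1a91b9_nuI
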