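import Pool.Agent.Lib.MP_1a91b9_nuI.Ho.Use
import Pool.Agent.Lib.MP_1a91b9_nuI.Glob

/-!
# The families of isogenous curves
-/

set_option autoImplicit false

namespace Pool.Agent.Lib.MP_1a91b9_nuI

open WeierstrassCurve

universe u

section
variable {F : Type*} [Field F]

/-- `y² = x³ + a x + b` -/
def cv (a b : F) : WeierstrassCurve F := ⟨0, 0, 0, a, b⟩

theorem cv_map {F' : Type*} [Field F'] (f : F →+* F') (a b : F) :
    (cv a b).map f = cv (f a) (f b) := by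
  simp [cv, WeierstrassCurve.map]

theorem cv_c₄ (a b : F) : (cv a b).c₄ = -48 * a := by
  simp only [cv, WeierstrassCurve.c₄, WeierstrassCurve.b₂, WeierstrassCurve.b₄]
  ring

theorem cv_c₆ (a b : F) : (cv a b).c₆ = -864 * b := by
  simp only [cv, WeierstrassCurve.c₆, WeierstrassCurve.b₂, WeierstrassCurve.b₄,
    WeierstrassCurve.b₆]
  ring

theorem cv_Δ (a b : F) : (cv a b).Δ = -16 * (4 * a ^ 3 + 27 * b ^ 2) := by
  simp only [cv, WeierstrassCurve.Δ, WeierstrassCurve.b₂, WeierstrassCurve.b₄,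
    WeierstrassCurve.b₆, WeierstrassCurve.b₈]
  ring

theorem cv_shift (a b r : F) : (⟨1, r, 0, 0⟩ : VariableChange F) • cv a b =
    E3 (3 * r) (a + 3 * r ^ 2) (b + r * a + r ^ 3) := by
  ext
  · simp [variableChange_a₁, cv, E3]
  · simp [variableChange_a₂, cv, E3]
  · simp [variableChange_a₃, cv, E3]
  · simp [variableChange_a₄, cv, E3]
  · simp [variableChange_a₆, cv, E3]

theorem cv_scale (a b : F) (u : Fˣ) : (⟨u, 0, 0, 0⟩ : VariableChange F) • cv a b =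
    cv ((↑u⁻¹ : F) ^ 4 * a) ((↑u⁻¹ : F) ^ 6 * b) := by
  ext
  · simp [variableChange_a₁, cv]
  · simp [variableChange_a₂, cv]
  · simp [variableChange_a₃, cv]
  · simp [variableChange_a₄, cv]
  · simp [variableChange_a₆, cv]

theorem hasJ_cv (a b : F) (j : ℤ) (h : (-48 * a) ^ 3 = j * (-16 * (4 * a ^ 3 + 27 * b ^ 2))) :
    HasJ (cv a b) j := by
  unfold HasJ
  rw [cv_c₄, cv_Δ]
  exact h

theorem E3_zero (a b : F) : E3 a b 0 = E2 a b := rfl

end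

/-- the parameters of a family of isogenies of degree 2: `y² = x³ + a' D² x + b' D³` has the point
`(r D, 0)`, and the quotient is isomorphic to `y² = x³ + a D² x + b D³` -/
structure P2 (r a' b' a b : ℤ) : Prop where
  h1 : r ^ 3 + a' * r + b' = 0
  h2 : 16 * a = -15 * r ^ 2 - 4 * a'
  h3 : 8 * b = r ^ 3 + 4 * a * r
  n1 : 3 * r ^ 2 + a' ≠ 0
  n2 : -3 * r ^ 2 - 4 * a' ≠ 0

section
variable {F : Type*} [Field F] {r a' b' a b : ℤ}

theorem P2.e1 (h : P2 r a' b' a b) (D : F) : (⟨1, r * D, 0, 0⟩ : VariableChange F) •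
    cv (a' * D ^ 2) (b' * D ^ 3) = E2 (3 * r * D) ((3 * r ^ 2 + a') * D ^ 2) := by
  have h1 : (r : F) ^ 3 + a' * r + b' = 0 := by exact_mod_cast congrArg (Int.cast : ℤ → F) h.h1
  rw [cv_shift, ← E3_zero]
  congr 1
  · ring
  · ring
  · linear_combination D ^ 3 * h1

theorem P2.e2' (h : P2 r a' b' a b) (h2 : (2 : F) ≠ 0) (D : F) :
    (⟨1, -2 * r * D, 0, 0⟩ : VariableChange F) •
    (⟨(Units.mk0 2 h2)⁻¹, 0, 0, 0⟩ : VariableChange F) •
    cv (a * D ^ 2) (b * D ^ 3) = E2 (-2 * (3 * r * D))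
      ((3 * r * D) ^ 2 - 4 * ((3 * r ^ 2 + a') * D ^ 2)) := by
  have h2 : 16 * (a : F) = -15 * r ^ 2 - 4 * a' := by
    exact_mod_cast congrArg (Int.cast : ℤ → F) h.h2
  have h3 : 8 * (b : F) = r ^ 3 + 4 * a * r := by
    exact_mod_cast congrArg (Int.cast : ℤ → F) h.h3
  rw [cv_scale, cv_shift, ← E3_zero, inv_inv, Units.val_mk0]
  congr 1
  · ring
  · linear_combination D ^ 2 * h2
  · linear_combination 8 * D ^ 3 * h3

end

section
variable {F : Type*} [Field F] [CharZero F] {r a' b' a b : ℤ}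

theorem P2.e2 (h : P2 r a' b' a b) (D : F) : (⟨1, -2 * r * D, 0, 0⟩ : VariableChange F) •
    (⟨(Units.mk0 2 two_ne_zero)⁻¹, 0, 0, 0⟩ : VariableChange F) •
    cv (a * D ^ 2) (b * D ^ 3) = E2 (-2 * (3 * r * D))
      ((3 * r * D) ^ 2 - 4 * ((3 * r ^ 2 + a') * D ^ 2)) := h.e2' two_ne_zero D

theorem P2.rel (h : P2 r a' b' a b) (D : F) (hD : D ≠ 0) :
    Rel2 (E2 (3 * r * D) ((3 * r ^ 2 + a') * D ^ 2))
      (E2 (-2 * (3 * r * D)) ((3 * r * D) ^ 2 - 4 * ((3 * r ^ 2 + a') * D ^ 2))) where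
  two := two_ne_zero
  a₁ := rfl
  a₃ := rfl
  a₆ := rfl
  a₁' := rfl
  a₃' := rfl
  a₆' := rfl
  a₂' := rfl
  a₄' := rfl
  b0 := by
    have h1 : (3 * (r : F) ^ 2 + a') ≠ 0 := by exact_mod_cast h.n1
    exact mul_ne_zero h1 (pow_ne_zero 2 hD)
  b0' := by
    have h1 : (-3 * (r : F) ^ 2 - 4 * a') ≠ 0 := by exact_mod_cast h.n2
    have h2 : (3 * r * D) ^ 2 - 4 * ((3 * (r : F) ^ 2 + a') * D ^ 2) =
        (-3 * (r : F) ^ 2 - 4 * a') * D ^ 2 := by ring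
    show (3 * r * D) ^ 2 - 4 * ((3 * (r : F) ^ 2 + a') * D ^ 2) ≠ 0
    rw [h2]
    exact mul_ne_zero h1 (pow_ne_zero 2 hD)

theorem P2.rel' (h : P2 r a' b' a b) (D : F) (hD : D ≠ 0) :
    Rel2 (E2 (-2 * (3 * r * D)) ((3 * r * D) ^ 2 - 4 * ((3 * r ^ 2 + a') * D ^ 2)))
      ((⟨(Units.mk0 2 two_ne_zero)⁻¹, 0, 0, 0⟩ : VariableChange F) •
        E2 (3 * r * D) ((3 * r ^ 2 + a') * D ^ 2)) := by
  rw [← E2_dual two_ne_zero]
  exact
    { two := two_ne_zero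
      a₁ := rfl
      a₃ := rfl
      a₆ := rfl
      a₁' := rfl
      a₃' := rfl
      a₆' := rfl
      a₂' := rfl
      a₄' := rfl
      b0 := (h.rel D hD).b0'
      b0' := by
        have h1 : (3 * (r : F) ^ 2 + a') ≠ 0 := by exact_mod_cast h.n1
        have h2 : (-2 * (3 * r * D)) ^ 2 - 4 * ((3 * r * D) ^ 2 - 4 * ((3 * (r : F) ^ 2 + a') *
          D ^ 2)) = 2 ^ 4 * ((3 * (r : F) ^ 2 + a') * D ^ 2) := by ring
        show (-2 * (3 * r * D)) ^ 2 - 4 * ((3 * r * D) ^ 2 - 4 * ((3 * (r : F) ^ 2 + a') *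
          D ^ 2)) ≠ 0
        rw [h2]
        exact mul_ne_zero (pow_ne_zero 4 two_ne_zero) (mul_ne_zero h1 (pow_ne_zero 2 hD)) }

end

section
variable {F : Type u} [Field F] [CharZero F] {r a' b' a b : ℤ}

/-- the isogeny of degree 2 -/
noncomputable def P2.isg (h : P2 r a' b' a b) (D : F) (hD : D ≠ 0) :
    Isg (cv (a' * D ^ 2) (b' * D ^ 3)) (cv (a * D ^ 2) (b * D ^ 3)) 2 :=
  ((Isg.ofChange' _ (h.e1 D)).comp (Isg.ofRel2 (h.rel D hD))).comp
    ((Isg.ofChange _ (h.e2 D)).comp (Isg.ofChange _ rfl))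

/-- the isogeny of degree 2 in the other direction -/
noncomputable def P2.isg' (h : P2 r a' b' a b) (D : F) (hD : D ≠ 0) :
    Isg (cv (a * D ^ 2) (b * D ^ 3)) (cv (a' * D ^ 2) (b' * D ^ 3)) 2 :=
  (((Isg.ofChange' _ rfl).comp (Isg.ofChange' _ (h.e2 D))).comp
    (Isg.ofRel2 (h.rel' D hD))).comp ((Isg.ofChange _ rfl).comp (Isg.ofChange _ (h.e1 D)))

end

end Pool.Agent.Lib.MP_1a91b9_nuI
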