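import Pool.Agent.Lib.MP_1a91b9_nuI.Fa.Fam

/-!
# The families of isogenous curves, degree 3; the four families
-/

set_option autoImplicit false

namespace Pool.Agent.Lib.MP_1a91b9_nuI

open WeierstrassCurve

universe u

section
variable {F : Type*} [Field F]

theorem T3.e1 (D : F) : (⟨1, -2 * D, 0, 0⟩ : VariableChange F) •
    cv ((0 : ℤ) * D ^ 2) ((2 : ℤ) * D ^ 3) = E3 (-6 * D) (12 * D ^ 2) (-6 * D ^ 3) := by
  rw [cv_shift]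
  push_cast
  congr 1 <;> ring

theorem T3.e2 (D : F) : (⟨1, -2 * D, 0, 0⟩ : VariableChange F) •
    cv ((-120 : ℤ) * D ^ 2) ((506 : ℤ) * D ^ 3) = E3 (-6 * D) (-9 * (12 * D ^ 2))
      (-27 * (-6 * D ^ 3) - 8 * (-6 * D) * (12 * D ^ 2)) := by
  rw [cv_shift]
  push_cast
  congr 1 <;> ring

end

section
variable {F : Type*} [Field F] [CharZero F]

theorem T3.e3 (D : F) : (⟨1, 6 * D, 0, 0⟩ : VariableChange F) •
    cv ((-120 : ℤ) * D ^ 2) ((506 : ℤ) * D ^ 3) = E3 (18 * D) (-12 * D ^ 2) (2 * D ^ 3) := by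
  rw [cv_shift]
  push_cast
  congr 1 <;> ring

theorem T3.e4 (D : F) : (⟨1, 6 * D, 0, 0⟩ : VariableChange F) •
    (⟨(Units.mk0 3 three_ne_zero)⁻¹, 0, 0, 0⟩ : VariableChange F) •
    cv ((0 : ℤ) * D ^ 2) ((2 : ℤ) * D ^ 3) = E3 (18 * D) (-9 * (-12 * D ^ 2))
      (-27 * (2 * D ^ 3) - 8 * (18 * D) * (-12 * D ^ 2)) := by
  rw [cv_scale, cv_shift, inv_inv, Units.val_mk0]
  push_cast
  congr 1 <;> ring

theorem rel3_E3 (a b c : F) (hr : 4 * a * c = b ^ 2) (hc : c ≠ 0)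
    (hd : b ^ 3 - 54 * c ^ 2 ≠ 0) : Rel3 (E3 a b c) (E3 a (-9 * b) (-27 * c - 8 * a * b)) where
  two := two_ne_zero
  three := three_ne_zero
  a₁ := rfl
  a₃ := rfl
  a₁' := rfl
  a₃' := rfl
  a₂' := rfl
  a₄' := rfl
  a₆' := rfl
  rel := hr
  c0 := hc
  d0 := hd

theorem T3.rel (D : F) (hD : D ≠ 0) : Rel3 (E3 (-6 * D) (12 * D ^ 2) (-6 * D ^ 3))
    (E3 (-6 * D) (-9 * (12 * D ^ 2)) (-27 * (-6 * D ^ 3) - 8 * (-6 * D) * (12 * D ^ 2))) := by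
  refine rel3_E3 _ _ _ (by ring) (mul_ne_zero (by norm_num) (pow_ne_zero 3 hD)) ?_
  have h : (12 * D ^ 2) ^ 3 - 54 * (-6 * D ^ 3) ^ 2 = -216 * D ^ 6 := by ring
  rw [h]
  exact mul_ne_zero (by norm_num) (pow_ne_zero 6 hD)

theorem T3.rel' (D : F) (hD : D ≠ 0) : Rel3 (E3 (18 * D) (-12 * D ^ 2) (2 * D ^ 3))
    (E3 (18 * D) (-9 * (-12 * D ^ 2)) (-27 * (2 * D ^ 3) - 8 * (18 * D) * (-12 * D ^ 2))) := by
  refine rel3_E3 _ _ _ (by ring) (mul_ne_zero (by norm_num) (pow_ne_zero 3 hD)) ?_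
  have h : (-12 * D ^ 2) ^ 3 - 54 * (2 * D ^ 3) ^ 2 = -1944 * D ^ 6 := by ring
  rw [h]
  exact mul_ne_zero (by norm_num) (pow_ne_zero 6 hD)

end

section
variable {F : Type u} [Field F] [CharZero F]

/-- the isogeny of degree 3 -/
noncomputable def T3.isg' (D : F) (hD : D ≠ 0) :
    Isg (cv ((0 : ℤ) * D ^ 2) ((2 : ℤ) * D ^ 3)) (cv ((-120 : ℤ) * D ^ 2) ((506 : ℤ) * D ^ 3)) 3 :=
  ((Isg.ofChange' _ (T3.e1 D)).comp (Isg.ofRel3 (T3.rel D hD))).comp (Isg.ofChange _ (T3.e2 D))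

/-- the isogeny of degree 3 in the other direction -/
noncomputable def T3.isg (D : F) (hD : D ≠ 0) :
    Isg (cv ((-120 : ℤ) * D ^ 2) ((506 : ℤ) * D ^ 3)) (cv ((0 : ℤ) * D ^ 2) ((2 : ℤ) * D ^ 3)) 3 :=
  ((Isg.ofChange' _ (T3.e3 D)).comp (Isg.ofRel3 (T3.rel' D hD))).comp
    ((Isg.ofChange _ (T3.e4 D)).comp (Isg.ofChange _ rfl))

end

/-- The four families: `y² = x³ + a' D² x + b' D³` has the `j`-invariant `j'` and complex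
multiplication by the order of discriminant `-12`, `-16`, `-28`, `-27`, there is an isogeny of degree `n` to
`y² = x³ + a D² x + b D³`, which has the `j`-invariant `j` and complex multiplication by the maximal order
of discriminant `d`. -/
def Four (a' b' a b : ℤ) (n : ℕ) (j' j d : ℤ) : Prop :=
  (a' = -15 ∧ b' = 22 ∧ a = 0 ∧ b = 1 ∧ n = 2 ∧ j' = 54000 ∧ j = 0 ∧ d = -3) ∨
  (a' = -11 ∧ b' = 14 ∧ a = -1 ∧ b = 0 ∧ n = 2 ∧ j' = 287496 ∧ j = 1728 ∧ d = -4) ∨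
  (a' = -595 ∧ b' = 5586 ∧ a = -35 ∧ b = 98 ∧ n = 2 ∧ j' = 16581375 ∧ j = -3375 ∧ d = -7) ∨
  (a' = -120 ∧ b' = 506 ∧ a = 0 ∧ b = 2 ∧ n = 3 ∧ j' = -12288000 ∧ j = 0 ∧ d = -3)

theorem p2_12 : P2 2 (-15) 22 0 1 := by constructor <;> norm_num
theorem p2_16 : P2 2 (-11) 14 (-1) 0 := by constructor <;> norm_num
theorem p2_28 : P2 14 (-595) 5586 (-35) 98 := by constructor <;> norm_num

section
variable {a' b' a b : ℤ} {n : ℕ} {j' j d : ℤ}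

theorem Four.isg (h : Four a' b' a b n j' j d) {F : Type u} [Field F] [CharZero F] (D : F)
    (hD : D ≠ 0) :
    Nonempty (Isg (cv (a' * D ^ 2) (b' * D ^ 3)) (cv (a * D ^ 2) (b * D ^ 3)) n) := by
  rcases h with ⟨rfl, rfl, rfl, rfl, rfl, rfl, rfl, rfl⟩ | ⟨rfl, rfl, rfl, rfl, rfl, rfl, rfl, rfl⟩ |
    ⟨rfl, rfl, rfl, rfl, rfl, rfl, rfl, rfl⟩ | ⟨rfl, rfl, rfl, rfl, rfl, rfl, rfl, rfl⟩
  · exact ⟨p2_12.isg D hD⟩
  · exact ⟨p2_16.isg D hD⟩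
  · exact ⟨p2_28.isg D hD⟩
  · exact ⟨T3.isg D hD⟩

theorem Four.isg' (h : Four a' b' a b n j' j d) {F : Type u} [Field F] [CharZero F] (D : F)
    (hD : D ≠ 0) :
    Nonempty (Isg (cv (a * D ^ 2) (b * D ^ 3)) (cv (a' * D ^ 2) (b' * D ^ 3)) n) := by
  rcases h with ⟨rfl, rfl, rfl, rfl, rfl, rfl, rfl, rfl⟩ | ⟨rfl, rfl, rfl, rfl, rfl, rfl, rfl, rfl⟩ |
    ⟨rfl, rfl, rfl, rfl, rfl, rfl, rfl, rfl⟩ | ⟨rfl, rfl, rfl, rfl, rfl, rfl, rfl, rfl⟩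
  · exact ⟨p2_12.isg' D hD⟩
  · exact ⟨p2_16.isg' D hD⟩
  · exact ⟨p2_28.isg' D hD⟩
  · exact ⟨T3.isg' D hD⟩

theorem Four.hasJ' (h : Four a' b' a b n j' j d) {F : Type*} [Field F] (D : F) :
    HasJ (cv (a' * D ^ 2) (b' * D ^ 3)) j' := by
  apply hasJ_cv
  rcases h with ⟨rfl, rfl, rfl, rfl, rfl, rfl, rfl, rfl⟩ | ⟨rfl, rfl, rfl, rfl, rfl, rfl, rfl, rfl⟩ |
    ⟨rfl, rfl, rfl, rfl, rfl, rfl, rfl, rfl⟩ | ⟨rfl, rfl, rfl, rfl, rfl, rfl, rfl, rfl⟩ <;>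
  · push_cast
    ring

theorem Four.hasJ (h : Four a' b' a b n j' j d) {F : Type*} [Field F] (D : F) :
    HasJ (cv (a * D ^ 2) (b * D ^ 3)) j := by
  apply hasJ_cv
  rcases h with ⟨rfl, rfl, rfl, rfl, rfl, rfl, rfl, rfl⟩ | ⟨rfl, rfl, rfl, rfl, rfl, rfl, rfl, rfl⟩ |
    ⟨rfl, rfl, rfl, rfl, rfl, rfl, rfl, rfl⟩ | ⟨rfl, rfl, rfl, rfl, rfl, rfl, rfl, rfl⟩ <;>
  · push_cast
    ring

end

/-- the L-functions are equal -/
theorem P2.lf {r a' b' a b j' j : ℤ} (h : P2 r a' b' a b) {N : Type*} [Field N] [NumberField N]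
    (D : N) (hj' : HasJ (cv (a' * D ^ 2) (b' * D ^ 3)) j')
    (hj : HasJ (cv (a * D ^ 2) (b * D ^ 3)) j) :
    (cv (a' * D ^ 2) (b' * D ^ 3)).LFunction = (cv (a * D ^ 2) (b * D ^ 3)).LFunction := by
  have e1 := h.e1 D
  have e2 := h.e2 D
  have k1 := LFunction_change _ (⟨1, r * D, 0, 0⟩ : VariableChange N) j' hj'
  have k1' := hasJ_change _ (⟨1, r * D, 0, 0⟩ : VariableChange N) j' hj'
  have k2 := LFunction_change _ (⟨(Units.mk0 2 two_ne_zero)⁻¹, 0, 0, 0⟩ : VariableChange N) j hj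
  have k2' := hasJ_change _ (⟨(Units.mk0 2 two_ne_zero)⁻¹, 0, 0, 0⟩ : VariableChange N) j hj
  have k3 := LFunction_change _ (⟨1, -2 * r * D, 0, 0⟩ : VariableChange N) j k2'
  have k3' := hasJ_change _ (⟨1, -2 * r * D, 0, 0⟩ : VariableChange N) j k2'
  rw [e1] at k1 k1'
  rw [e2] at k3 k3'
  rw [← k1, ← k2, ← k3]
  exact (LFunction_two _ _ j' j k1' k3').symm

theorem T3.lf {N : Type*} [Field N] [NumberField N] (D : N)
    (hj' : HasJ (cv ((-120 : ℤ) * D ^ 2) ((506 : ℤ) * D ^ 3)) (-12288000))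
    (hj : HasJ (cv ((0 : ℤ) * D ^ 2) ((2 : ℤ) * D ^ 3)) 0) :
    (cv ((-120 : ℤ) * D ^ 2) ((506 : ℤ) * D ^ 3)).LFunction =
      (cv ((0 : ℤ) * D ^ 2) ((2 : ℤ) * D ^ 3)).LFunction := by
  have e1 := T3.e1 D
  have e2 := T3.e2 D
  have k1 := LFunction_change _ (⟨1, -2 * D, 0, 0⟩ : VariableChange N) _ hj
  have k1' := hasJ_change _ (⟨1, -2 * D, 0, 0⟩ : VariableChange N) _ hj
  have k2 := LFunction_change _ (⟨1, -2 * D, 0, 0⟩ : VariableChange N) _ hj'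
  have k2' := hasJ_change _ (⟨1, -2 * D, 0, 0⟩ : VariableChange N) _ hj'
  rw [e1] at k1 k1'
  rw [e2] at k2 k2'
  rw [← k1, ← k2]
  exact LFunction_three _ _ _ (by ring) 0 (-12288000) (by norm_num) (by norm_num) k1' k2'

theorem Four.lf {a' b' a b : ℤ} {n : ℕ} {j' j d : ℤ} (h : Four a' b' a b n j' j d)
    {N : Type*} [Field N] [NumberField N] (D : N) :
    (cv (a' * D ^ 2) (b' * D ^ 3)).LFunction = (cv (a * D ^ 2) (b * D ^ 3)).LFunction := by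
  have h1 := h.hasJ' D
  have h2 := h.hasJ D
  rcases h with ⟨rfl, rfl, rfl, rfl, rfl, rfl, rfl, rfl⟩ | ⟨rfl, rfl, rfl, rfl, rfl, rfl, rfl, rfl⟩ |
    ⟨rfl, rfl, rfl, rfl, rfl, rfl, rfl, rfl⟩ | ⟨rfl, rfl, rfl, rfl, rfl, rfl, rfl, rfl⟩
  · exact p2_12.lf D h1 h2
  · exact p2_16.lf D h1 h2
  · exact p2_28.lf D h1 h2
  · exact T3.lf D h1 h2

end Pool.Agent.Lib.MP_1a91b9_nuI
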