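import Pool.Agent.Lib.MP_1a91b9_nuI.Fa.Fam3
import Pool.Agent.Lib.MP_1a91b9_nuI.CntO2
import Pool.Agent.Lib.MP_1a91b9_nuI.CntO3

/-!
# The four families: points over finite fields, classification of the forms, integrality
-/

set_option autoImplicit false

namespace Pool.Agent.Lib.MP_1a91b9_nuI

open WeierstrassCurve
open Pool.Agent.Lib.MP_1a91b9_nt (card_point_variableChange)

section
variable {a' b' a b : ℤ} {n : ℕ} {j' j d : ℤ}

theorem P2.card {r : ℤ} (h : P2 r a' b' a b) {κ : Type*} [Field κ] [Finite κ]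
    (h2 : (2 : κ) ≠ 0) (D : κ) (h4 : (3 * (r : κ) ^ 2 + a') * D ^ 2 ≠ 0)
    (h5 : (3 * r * D) ^ 2 - 4 * ((3 * (r : κ) ^ 2 + a') * D ^ 2) ≠ 0) :
    Nat.card (cv (a' * D ^ 2) (b' * D ^ 3)).toAffine.Point =
      Nat.card (cv (a * D ^ 2) (b * D ^ 3)).toAffine.Point := by
  have k1 := card_point_variableChange (cv (a' * D ^ 2) (b' * D ^ 3))
    (⟨1, r * D, 0, 0⟩ : VariableChange κ)
  have k2 := card_point_variableChange (cv (a * D ^ 2) (b * D ^ 3))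
    (⟨(Units.mk0 2 h2)⁻¹, 0, 0, 0⟩ : VariableChange κ)
  have k3 := card_point_variableChange ((⟨(Units.mk0 2 h2)⁻¹, 0, 0, 0⟩ : VariableChange κ) •
    cv (a * D ^ 2) (b * D ^ 3)) (⟨1, -2 * r * D, 0, 0⟩ : VariableChange κ)
  rw [h.e1 D] at k1
  rw [h.e2' h2 D] at k3
  rw [← k1, ← k2, ← k3]
  exact (card_E2 h2 _ _ h4 h5).symm

theorem T3.card {κ : Type*} [Field κ] [Finite κ] (h2 : (2 : κ) ≠ 0) (h3 : (3 : κ) ≠ 0) (D : κ)
    (hD : D ≠ 0) : Nat.card (cv ((-120 : ℤ) * D ^ 2) ((506 : ℤ) * D ^ 3)).toAffine.Point =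
      Nat.card (cv ((0 : ℤ) * D ^ 2) ((2 : ℤ) * D ^ 3)).toAffine.Point := by
  rw [← card_point_variableChange (cv ((0 : ℤ) * D ^ 2) ((2 : ℤ) * D ^ 3))
    (⟨1, -2 * D, 0, 0⟩ : VariableChange κ), T3.e1 D,
    ← card_point_variableChange (cv ((-120 : ℤ) * D ^ 2) ((506 : ℤ) * D ^ 3))
      (⟨1, -2 * D, 0, 0⟩ : VariableChange κ), T3.e2 D]
  refine card_E3 h2 h3 _ _ _ (by ring) ?_ ?_
  · have h : -6 * D ^ 3 = -(2 * 3 * D ^ 3) := by ring
    rw [h]
    exact neg_ne_zero.2 (mul_ne_zero (mul_ne_zero h2 h3) (pow_ne_zero 3 hD))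
  · have h : (12 * D ^ 2) ^ 3 - 54 * (-6 * D ^ 3) ^ 2 = -(2 ^ 3 * 3 ^ 3 * D ^ 6) := by ring
    rw [h]
    exact neg_ne_zero.2 (mul_ne_zero (mul_ne_zero (pow_ne_zero 3 h2) (pow_ne_zero 3 h3))
      (pow_ne_zero 6 hD))

/-- the numbers of points over a finite field of characteristic prime to 6 are equal -/
theorem Four.card (h : Four a' b' a b n j' j d) {κ : Type*} [Field κ] [Finite κ]
    (h6 : (6 : κ) ≠ 0) (D : κ)
    (hΔ : 4 * (a' * D ^ 2) ^ 3 + 27 * (b' * D ^ 3) ^ 2 ≠ 0) :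
    Nat.card (cv (a' * D ^ 2) (b' * D ^ 3)).toAffine.Point =
      Nat.card (cv (a * D ^ 2) (b * D ^ 3)).toAffine.Point := by
  have h2 : (2 : κ) ≠ 0 := by
    intro h0
    apply h6
    linear_combination 3 * h0
  have h3 : (3 : κ) ≠ 0 := by
    intro h0
    apply h6
    linear_combination 2 * h0
  have hD : D ≠ 0 := by
    rintro rfl
    apply hΔ
    ring
  rcases h with ⟨rfl, rfl, rfl, rfl, rfl, rfl, rfl, rfl⟩ | ⟨rfl, rfl, rfl, rfl, rfl, rfl, rfl, rfl⟩ |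
    ⟨rfl, rfl, rfl, rfl, rfl, rfl, rfl, rfl⟩ | ⟨rfl, rfl, rfl, rfl, rfl, rfl, rfl, rfl⟩
  · refine p2_12.card h2 D ?_ ?_
    · push_cast
      have h4 : (3 * (2 : κ) ^ 2 + -15) * D ^ 2 = -(3 * D ^ 2) := by ring
      rw [h4]
      exact neg_ne_zero.2 (mul_ne_zero h3 (pow_ne_zero 2 hD))
    · push_cast
      have h4 : (3 * 2 * D) ^ 2 - 4 * ((3 * (2 : κ) ^ 2 + -15) * D ^ 2) = 2 ^ 4 * 3 * D ^ 2 := by
        ring
      rw [h4]
      exact mul_ne_zero (mul_ne_zero (pow_ne_zero 4 h2) h3) (pow_ne_zero 2 hD)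
  · refine p2_16.card h2 D ?_ ?_
    · push_cast
      have h4 : (3 * (2 : κ) ^ 2 + -11) * D ^ 2 = D ^ 2 := by ring
      rw [h4]
      exact pow_ne_zero 2 hD
    · push_cast
      have h4 : (3 * 2 * D) ^ 2 - 4 * ((3 * (2 : κ) ^ 2 + -11) * D ^ 2) = 2 ^ 5 * D ^ 2 := by
        ring
      rw [h4]
      exact mul_ne_zero (pow_ne_zero 5 h2) (pow_ne_zero 2 hD)
  · have h7 : (7 : κ) ≠ 0 := by
      intro h0
      apply hΔ
      push_cast
      linear_combination (-12544 * D ^ 6) * h0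
    refine p2_28.card h2 D ?_ ?_
    · push_cast
      have h4 : (3 * (14 : κ) ^ 2 + -595) * D ^ 2 = -(7 * D ^ 2) := by ring
      rw [h4]
      exact neg_ne_zero.2 (mul_ne_zero h7 (pow_ne_zero 2 hD))
    · push_cast
      have h4 : (3 * 14 * D) ^ 2 - 4 * ((3 * (14 : κ) ^ 2 + -595) * D ^ 2) =
          2 ^ 8 * 7 * D ^ 2 := by ring
      rw [h4]
      exact mul_ne_zero (mul_ne_zero (pow_ne_zero 8 h2) h7) (pow_ne_zero 2 hD)
  · exact T3.card h2 h3 D hD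

theorem Four.ne (h : Four a' b' a b n j' j d) : a' ≠ 0 ∧ b' ≠ 0 := by
  rcases h with ⟨rfl, rfl, rfl, rfl, rfl, rfl, rfl, rfl⟩ | ⟨rfl, rfl, rfl, rfl, rfl, rfl, rfl, rfl⟩ |
    ⟨rfl, rfl, rfl, rfl, rfl, rfl, rfl, rfl⟩ | ⟨rfl, rfl, rfl, rfl, rfl, rfl, rfl, rfl⟩ <;>
  norm_num

theorem exists_cv {N : Type*} [Field N] [CharZero N] (W : WeierstrassCurve N) :
    ∃ (C : VariableChange N) (A B : N), C • W = cv A B := by
  have i2 : Invertible (2 : N) := invertibleOfNonzero two_ne_zero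
  have i3 : Invertible (3 : N) := invertibleOfNonzero three_ne_zero
  obtain ⟨C, hC⟩ := W.exists_variableChange_isShortNF
  refine ⟨C, (C • W).a₄, (C • W).a₆, ?_⟩
  ext
  · exact hC.a₁
  · exact hC.a₂
  · exact hC.a₃
  · rfl
  · rfl

/-- a curve over `N` which becomes isomorphic over `L` to the member `D₀` of the family is isomorphic
over `N` to a member `D` of the family, and the member `D` of the second family becomes isomorphic to the
member `D₀` -/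
theorem Four.cls (h : Four a' b' a b n j' j d) {N L : Type*} [Field N] [CharZero N] [Field L]
    [Algebra N L] (W : WeierstrassCurve N) (C : VariableChange L) (D₀ : L) (hD₀ : D₀ ≠ 0)
    (hC : C • W.baseChange L = cv (a' * D₀ ^ 2) (b' * D₀ ^ 3)) :
    ∃ D : N, D ≠ 0 ∧ (∃ C' : VariableChange N, C' • W = cv (a' * D ^ 2) (b' * D ^ 3)) ∧
      (∃ y : L, algebraMap N L D = y ^ 2 * D₀) ∧
      ∃ C' : VariableChange L, C' • (cv (a * D ^ 2) (b * D ^ 3)).baseChange L =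
        cv (a * D₀ ^ 2) (b * D₀ ^ 3) := by
  have hL : CharZero L := charZero_of_injective_algebraMap (algebraMap N L).injective
  obtain ⟨ha', hb'⟩ := h.ne
  obtain ⟨C₁, A, B, hC₁⟩ := exists_cv W
  have h1 : C • (C₁⁻¹.map (algebraMap N L)) • (cv A B).baseChange L =
      cv (a' * D₀ ^ 2) (b' * D₀ ^ 3) := by
    rw [← hC₁, ← bc_change W (C₁ • W) C₁ rfl L, ← hC]
    congr 1
    rw [← mul_smul]
    have h2 : C₁⁻¹.map (algebraMap N L) * C₁.map (algebraMap N L) = 1 := by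
      have h3 := (VariableChange.mapHom (algebraMap N L)).map_mul C₁⁻¹ C₁
      rw [inv_mul_cancel, map_one] at h3
      exact h3.symm
    rw [h2, one_smul]
  rw [← mul_smul] at h1
  obtain ⟨C₂, hC₂⟩ : ∃ C₂, C₂ = C * C₁⁻¹.map (algebraMap N L) := ⟨_, rfl⟩
  rw [← hC₂] at h1
  have hcv : (cv A B).baseChange L = cv (algebraMap N L A) (algebraMap N L B) := cv_map _ A B
  rw [hcv] at h1
  have h4 := congrArg WeierstrassCurve.c₄ h1
  have h6 := congrArg WeierstrassCurve.c₆ h1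
  rw [variableChange_c₄, cv_c₄, cv_c₄] at h4
  rw [variableChange_c₆, cv_c₆, cv_c₆] at h6
  have hu : (↑C₂.u⁻¹ : L) * (↑C₂.u : L) = 1 := C₂.u.inv_mul
  have hu0 : (↑C₂.u : L) ≠ 0 := C₂.u.ne_zero
  have hA : algebraMap N L A = a' * ((↑C₂.u : L) ^ 2 * D₀) ^ 2 := by
    have h5 : ((↑C₂.u⁻¹ : L) * (↑C₂.u : L)) ^ 4 = 1 := by rw [hu, one_pow]
    linear_combination (-(1 / 48) * (↑C₂.u : L) ^ 4) * h4 - algebraMap N L A * h5
  have hB : algebraMap N L B = b' * ((↑C₂.u : L) ^ 2 * D₀) ^ 3 := by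
    have h5 : ((↑C₂.u⁻¹ : L) * (↑C₂.u : L)) ^ 6 = 1 := by rw [hu, one_pow]
    linear_combination (-(1 / 864) * (↑C₂.u : L) ^ 6) * h6 - algebraMap N L B * h5
  have haL : (a' : L) ≠ 0 := by exact_mod_cast ha'
  have hbL : (b' : L) ≠ 0 := by exact_mod_cast hb'
  have hE0 : (↑C₂.u : L) ^ 2 * D₀ ≠ 0 := mul_ne_zero (pow_ne_zero 2 hu0) hD₀
  obtain ⟨E, hE⟩ : ∃ E : L, E = (↑C₂.u : L) ^ 2 * D₀ := ⟨_, rfl⟩
  rw [← hE] at hA hB hE0
  have hDL : algebraMap N L (a' * B / (b' * A)) = E := by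
    rw [map_div₀, map_mul, map_mul, map_intCast, map_intCast, hA, hB]
    field_simp
  refine ⟨a' * B / (b' * A), ?_, ⟨C₁, ?_⟩, ⟨(↑C₂.u : L), by rw [hDL, hE]⟩, ?_⟩
  · intro h0
    rw [h0, map_zero] at hDL
    exact hE0 hDL.symm
  · rw [hC₁]
    have e1 : A = a' * (a' * B / (b' * A)) ^ 2 := by
      apply (algebraMap N L).injective
      rw [map_mul, map_pow, hDL, map_intCast, hA]
    have e2 : B = b' * (a' * B / (b' * A)) ^ 3 := by
      apply (algebraMap N L).injective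
      rw [map_mul, map_pow, hDL, map_intCast, hB]
    exact congrArg₂ cv e1 e2
  · refine ⟨⟨C₂.u, 0, 0, 0⟩, ?_⟩
    have e3 : (cv (a * (a' * B / (b' * A)) ^ 2) (b * (a' * B / (b' * A)) ^ 3)).baseChange L =
        cv (a * E ^ 2) (b * E ^ 3) := by
      rw [WeierstrassCurve.baseChange, cv_map, map_mul, map_mul, map_pow, map_pow, hDL,
        map_intCast, map_intCast]
    rw [e3, cv_scale, hE]
    have h5 : ((↑C₂.u⁻¹ : L) * (↑C₂.u : L)) ^ 4 = 1 := by rw [hu, one_pow]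
    have h7 : ((↑C₂.u⁻¹ : L) * (↑C₂.u : L)) ^ 6 = 1 := by rw [hu, one_pow]
    refine congrArg₂ cv ?_ ?_
    · linear_combination (a * D₀ ^ 2) * h5
    · linear_combination (b * D₀ ^ 3) * h7

end

end Pool.Agent.Lib.MP_1a91b9_nuI
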