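import Pool.Agent.Lib.MP_1a91b9_nuI.Fa.FamR
import Pool.Agent.Lib.MP_1a91b9_nuI.Ta.Tow

/-!
# The four families: the conclusion for the second question, general case
-/

set_option autoImplicit false

namespace Pool.Agent.Lib.MP_1a91b9_nuI

open NumberField IsDedekindDomain WeierstrassCurve Module WithZero
open Pool.Agent.Lib.MP_1a91b9_nuX.GM (GoodW)
open Pool.Agent.Lib.MP_1a91b9_nuX.TM (sw)
open Pool.Agent.Lib.MP_1a91b9_nuT.S9 (period tam)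
open Pool.Agent.Lib.MP_1a91b9_nuT3.S9 (ShaP FormulaQ)

section
variable {a' b' a b : ℤ} {n : ℕ} {j' j d : ℤ}

theorem Four.disc_ne (h : Four a' b' a b n j' j d) {N : Type*} [Field N] [CharZero N] (D : N)
    (hD : D ≠ 0) : 4 * (a' * D ^ 2) ^ 3 + 27 * (b' * D ^ 3) ^ 2 ≠ 0 := by
  have h1 := h.discne 1 one_ne_zero
  have e : 4 * ((a' : N) * D ^ 2) ^ 3 + 27 * ((b' : N) * D ^ 3) ^ 2 =
      ((4 * (a' * 1 ^ 2) ^ 3 + 27 * (b' * 1 ^ 3) ^ 2 : ℤ) : N) * D ^ 6 := by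
    push_cast
    ring
  rw [e]
  exact mul_ne_zero (Int.cast_ne_zero.2 h1) (pow_ne_zero 6 hD)

theorem Four.jeq (h : Four a' b' a b n j' j d) {N : Type*} [Field N] (D : N) :
    6912 * (a' * D ^ 2) ^ 3 = j' * (4 * (a' * D ^ 2) ^ 3 + 27 * (b' * D ^ 3) ^ 2) := by
  rcases h with ⟨rfl, rfl, rfl, rfl, rfl, rfl, rfl, rfl⟩ | ⟨rfl, rfl, rfl, rfl, rfl, rfl, rfl, rfl⟩ |
    ⟨rfl, rfl, rfl, rfl, rfl, rfl, rfl, rfl⟩ | ⟨rfl, rfl, rfl, rfl, rfl, rfl, rfl, rfl⟩ <;>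
  · push_cast
    ring

variable [Pool.Agent.Lib.MP_1a91b9_nuT.CD]

/-- the Tamagawa numbers of the curves of the family -/
theorem Four.tamN (h : Four a' b' a b n j' j d) {ℓ : ℕ} (hℓ : ℓ.Prime) (h5 : 5 ≤ ℓ)
    (N : Type) [Field N] [NumberField N] (W : WeierstrassCurve N) (D : N) (hD : D ≠ 0)
    (C : VariableChange N) (hC : C • W = cv (a' * D ^ 2) (b' * D ^ 3))
    (hgood : ∀ v : HeightOneSpectrum (𝓞 N), (ℓ : 𝓞 N) ∈ v.asIdeal →
      ∃ C₀ : VariableChange (v.adicCompletion N),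
        GoodW (Valued.v : Valuation (v.adicCompletion N) ℤᵐ⁰)
          (C₀ • (sw ((a' : N) * D ^ 2) (b' * D ^ 3)).baseChange (v.adicCompletion N)))
    (v : HeightOneSpectrum (𝓞 N)) : (tam W v).Coprime ℓ := by
  refine tam_gen (h.disc_ne D hD) (h.jeq D) hC hℓ h5 v ?_
  by_cases hv : (ℓ : 𝓞 N) ∈ v.asIdeal
  · exact Or.inr (hgood v hv)
  · left
    have e : (ℓ : v.adicCompletion N) = algebraMap N (v.adicCompletion N) (ℓ : N) :=
      (map_natCast _ ℓ).symm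
    have e' : (ℓ : N) = algebraMap (𝓞 N) N (ℓ : 𝓞 N) := (map_natCast _ ℓ).symm
    have e2 : Valued.v (algebraMap N (v.adicCompletion N) (ℓ : N)) = v.valuation N (ℓ : N) :=
      HeightOneSpectrum.valuedAdicCompletion_eq_valuation' v _
    rw [e, e2, e']
    refine le_antisymm (v.valuation_le_one _) (not_lt.1 fun h => hv ?_)
    exact (v.valuation_lt_one_iff_mem (K := N) (ℓ : 𝓞 N)).1 h

theorem Four.q2g (h : Four a' b' a b n j' j d) {ℓ : ℕ} [hℓ : Fact ℓ.Prime] (h5 : 5 ≤ ℓ)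
    (N : Type) [Field N] [NumberField N] (W : WeierstrassCurve N) (D : N) (hD : D ≠ 0)
    (hW : ∃ C : VariableChange N, C • W = cv (a' * D ^ 2) (b' * D ^ 3))
    (hgood : ∀ v : HeightOneSpectrum (𝓞 N), (ℓ : 𝓞 N) ∈ v.asIdeal →
      ∃ C₀ : VariableChange (v.adicCompletion N),
        GoodW (Valued.v : Valuation (v.adicCompletion N) ℤᵐ⁰)
          (C₀ • (sw ((a' : N) * D ^ 2) (b' * D ^ 3)).baseChange (v.adicCompletion N)))
    (H : Con2 ℓ N (cv (a * D ^ 2) (b * D ^ 3))) : Con2 ℓ N W := by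
  obtain ⟨C, hC⟩ := hW
  obtain ⟨i⟩ := h.isg D hD
  intro g g1 g2
  obtain ⟨fV, sV, tV, nV, cV⟩ := H g g1 fun s hs => by rw [g2 s hs, lser_eq (h.lfW W D C hC)]
  have h2 : ℓ ≠ 2 := by omega
  have h3 : ℓ ≠ 3 := by omega
  have hn : (1 * n).Coprime ℓ := by
    rw [one_mul]
    rcases h.n23 with rfl | rfl
    · exact (Nat.coprime_primes Nat.prime_two hℓ.out).2 h2.symm
    · exact (Nat.coprime_primes Nat.prime_three hℓ.out).2 h3.symm
  obtain ⟨e, -⟩ : ∃ e : Isg W (cv ((a : N) * D ^ 2) (b * D ^ 3)) (1 * n), True :=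
    ⟨(Isg.ofChange' C hC).comp i, trivial⟩
  have sW : Nat.card (ShaP ℓ W) = 1 := by
    obtain ⟨hs, hs'⟩ := Nat.card_eq_one_iff_unique.1 sV
    exact Nat.card_eq_one_iff_unique.2 ⟨e.sha ℓ hn hs, ⟨0⟩⟩
  have nW := e.finite nV
  have cW := e.coprime hℓ.out hn nV cV
  have tW : ∀ v : HeightOneSpectrum (𝓞 N), (tam W v).Coprime ℓ :=
    h.tamN hℓ.out h5 N W D hD C hC hgood
  obtain ⟨x, hx, hx'⟩ := h.per D hD
  have hΔ : W.Δ ≠ 0 := by
    have e1 : (C • W).Δ ≠ 0 := by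
      rw [hC, cv_Δ]
      exact mul_ne_zero (by norm_num) (h.disc_ne D hD)
    rw [variableChange_Δ] at e1
    exact right_ne_zero_of_mul e1
  have hp : period W = x * period (cv ((a : N) * D ^ 2) (b * D ^ 3)) := by
    rw [← hx', ← hC, period_vc W hΔ C]
  exact ⟨formula_transfer W _ h2 h3 hx hp fV sV sW tV tW cV cW, sW, tW, nW, cW⟩

end

end Pool.Agent.Lib.MP_1a91b9_nuI
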