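import Pool.Agent.Lib.MP_1a91b9_nuI.Fa.Fam3

/-!
# The four families: integral equations
-/

set_option autoImplicit false

namespace Pool.Agent.Lib.MP_1a91b9_nuI

/-- a rational number `D` with `a' D²` and `b' D³` integral, for the four families -/
theorem rat_int (a' b' A B : ℤ) (D : ℚ) (ha : a' = -15 ∨ a' = -11 ∨ a' = -595 ∨ (a' = -120 ∧ b' = 506))
    (hA : (A : ℚ) = a' * D ^ 2) (hB : (B : ℚ) = b' * D ^ 3) : ∃ k : ℤ, D = k := by
  have hd : (D.den : ℚ) ≠ 0 := by exact_mod_cast D.den_nz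
  have e : D * D.den = D.num := Rat.mul_den_eq_num D
  have h1 : (A : ℚ) * D.den ^ 2 = a' * D.num ^ 2 := by
    rw [hA, ← e]
    ring
  have h1' : A * (D.den : ℤ) ^ 2 = a' * D.num ^ 2 := by exact_mod_cast h1
  have hcop : IsCoprime ((D.den : ℤ) ^ 2) (D.num ^ 2) := by
    have h2 : IsCoprime D.num (D.den : ℤ) := by
      rw [Int.isCoprime_iff_gcd_eq_one]
      exact D.reduced
    exact h2.symm.pow
  have h2 : (D.den : ℤ) ^ 2 ∣ a' := hcop.dvd_of_dvd_mul_right ⟨A, by linarith⟩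
  have key : ∀ m : ℕ, (D.den : ℤ) ^ 2 ∣ (m : ℤ) → D.den ^ 2 ∣ m := by
    intro m hm
    exact_mod_cast hm
  have fin : D.den = 1 → ∃ k : ℤ, D = k := by
    intro h
    exact ⟨D.num, by rw [← e, h]; simp⟩
  have h4 : ∀ m : ℕ, m ≠ 0 → m < 26 ^ 2 → D.den ^ 2 ∣ m → D.den ≤ 25 := by
    intro m hm hm' hdv
    have h5 := Nat.le_of_dvd (Nat.pos_of_ne_zero hm) hdv
    have h6 : D.den ^ 2 < 26 ^ 2 := lt_of_le_of_lt h5 hm'
    have h7 := lt_of_pow_lt_pow_left₀ 2 (by norm_num) h6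
    omega
  have hpos : 0 < D.den := D.pos
  rcases ha with rfl | rfl | rfl | ⟨rfl, rfl⟩
  · have h5 : D.den ^ 2 ∣ 15 := key 15 (by rw [← dvd_neg]; exact_mod_cast h2)
    have h6 := h4 15 (by norm_num) (by norm_num) h5
    apply fin
    interval_cases hq : D.den <;> first | rfl | (exfalso; revert h5; decide)
  · have h5 : D.den ^ 2 ∣ 11 := key 11 (by rw [← dvd_neg]; exact_mod_cast h2)
    have h6 := h4 11 (by norm_num) (by norm_num) h5
    apply fin
    interval_cases hq : D.den <;> first | rfl | (exfalso; revert h5; decide)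
  · have h5 : D.den ^ 2 ∣ 595 := key 595 (by rw [← dvd_neg]; exact_mod_cast h2)
    have h6 := h4 595 (by norm_num) (by norm_num) h5
    apply fin
    interval_cases hq : D.den <;> first | rfl | (exfalso; revert h5; decide)
  · have h5 : D.den ^ 2 ∣ 120 := key 120 (by rw [← dvd_neg]; exact_mod_cast h2)
    have h6 := h4 120 (by norm_num) (by norm_num) h5
    have h7 : (B : ℚ) * D.den ^ 3 = 506 * D.num ^ 3 := by
      rw [hB, ← e]
      push_cast
      ring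
    have h7' : B * (D.den : ℤ) ^ 3 = 506 * D.num ^ 3 := by exact_mod_cast h7
    have hred : Nat.Coprime D.num.natAbs D.den := D.reduced
    apply fin
    interval_cases hq : D.den
    · rfl
    · exfalso
      have h8 : (2 : ℤ) ∣ D.num ^ 3 := by
        have h9 : B * 8 = 506 * D.num ^ 3 := by
          have h10 := h7'
          norm_num at h10
          exact h10
        have h11 : (2 : ℤ) ∣ 253 * D.num ^ 3 := ⟨B * 2, by linarith⟩
        exact (IsCoprime.dvd_of_dvd_mul_left (by norm_num [Int.isCoprime_iff_gcd_eq_one]) h11)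
      have h9 : (2 : ℤ) ∣ D.num := Int.prime_two.dvd_of_dvd_pow h8
      have h10 : 2 ∣ D.num.natAbs := by
        exact_mod_cast (Int.natCast_dvd.1 h9)
      have h11 : 2 ∣ Nat.gcd D.num.natAbs 2 := Nat.dvd_gcd h10 (dvd_refl 2)
      have h12 : Nat.gcd D.num.natAbs 2 = 1 := hred
      rw [h12] at h11
      exact absurd h11 (by decide)
    all_goals exfalso; revert h5; decide

/-- integral equations with one of the four `j`-invariants -/
theorem Four.int {a' b' a b : ℤ} {n : ℕ} {j' j d : ℤ} (h : Four a' b' a b n j' j d) (A B : ℤ)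
    (hAB : 4 * A ^ 3 + 27 * B ^ 2 ≠ 0) (hj : 6912 * A ^ 3 = j' * (4 * A ^ 3 + 27 * B ^ 2)) :
    ∃ D : ℤ, D ≠ 0 ∧ A = a' * D ^ 2 ∧ B = b' * D ^ 3 := by
  obtain ⟨ha', hb'⟩ : a' ≠ 0 ∧ b' ≠ 0 := by
    rcases h with ⟨rfl, rfl, rfl, rfl, rfl, rfl, rfl, rfl⟩ | ⟨rfl, rfl, rfl, rfl, rfl, rfl, rfl, rfl⟩ |
      ⟨rfl, rfl, rfl, rfl, rfl, rfl, rfl, rfl⟩ | ⟨rfl, rfl, rfl, rfl, rfl, rfl, rfl, rfl⟩ <;>
    norm_num
  have h1 : b' ^ 2 * A ^ 3 = a' ^ 3 * B ^ 2 := by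
    rcases h with ⟨rfl, rfl, rfl, rfl, rfl, rfl, rfl, rfl⟩ | ⟨rfl, rfl, rfl, rfl, rfl, rfl, rfl, rfl⟩ |
      ⟨rfl, rfl, rfl, rfl, rfl, rfl, rfl, rfl⟩ | ⟨rfl, rfl, rfl, rfl, rfl, rfl, rfl, rfl⟩
    · linarith
    · linarith
    · linarith
    · linarith
  have hA : A ≠ 0 := by
    rintro rfl
    apply hAB
    have h2 : a' ^ 3 * B ^ 2 = 0 := by rw [← h1]; ring
    have h3 : B ^ 2 = 0 := (mul_eq_zero.1 h2).resolve_left (pow_ne_zero 3 ha')
    rw [h3]
    ring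
  have hB : B ≠ 0 := by
    rintro rfl
    have h2 : b' ^ 2 * A ^ 3 = 0 := by rw [h1]; ring
    exact hA (pow_eq_zero_iff three_ne_zero |>.1
      ((mul_eq_zero.1 h2).resolve_left (pow_ne_zero 2 hb')))
  have qa : (a' : ℚ) ≠ 0 := by exact_mod_cast ha'
  have qb : (b' : ℚ) ≠ 0 := by exact_mod_cast hb'
  have qA : (A : ℚ) ≠ 0 := by exact_mod_cast hA
  have qB : (B : ℚ) ≠ 0 := by exact_mod_cast hB
  have q1 : (b' : ℚ) ^ 2 * A ^ 3 = a' ^ 3 * B ^ 2 := by exact_mod_cast h1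
  have e1 : (A : ℚ) = a' * (a' * B / (b' * A)) ^ 2 := by
    field_simp
    linear_combination q1
  have e2 : (B : ℚ) = b' * (a' * B / (b' * A)) ^ 3 := by
    field_simp
    linear_combination q1
  obtain ⟨k, hk⟩ := rat_int a' b' A B (a' * B / (b' * A)) (by
    rcases h with ⟨rfl, rfl, rfl, rfl, rfl, rfl, rfl, rfl⟩ |
      ⟨rfl, rfl, rfl, rfl, rfl, rfl, rfl, rfl⟩ |
      ⟨rfl, rfl, rfl, rfl, rfl, rfl, rfl, rfl⟩ | ⟨rfl, rfl, rfl, rfl, rfl, rfl, rfl, rfl⟩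
    · exact Or.inl rfl
    · exact Or.inr (Or.inl rfl)
    · exact Or.inr (Or.inr (Or.inl rfl))
    · exact Or.inr (Or.inr (Or.inr ⟨rfl, rfl⟩))) e1 e2
  rw [hk] at e1 e2
  refine ⟨k, ?_, by exact_mod_cast e1, by exact_mod_cast e2⟩
  rintro rfl
  apply hA
  have h3 : (A : ℚ) = 0 := by rw [e1]; simp
  exact_mod_cast h3

end Pool.Agent.Lib.MP_1a91b9_nuI
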