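import Pool.Agent.Lib.MP_1a91b9_nuI.Fa.FamC
import Pool.Agent.Lib.MP_1a91b9_nuI.Pe.PC2
import Pool.Agent.Lib.MP_1a91b9_nuI.Pe.PC3
import Pool.Agent.Lib.MP_1a91b9_nuI.Pe.PR2
import Pool.Agent.Lib.MP_1a91b9_nuI.Pe.PR3
import Pool.Agent.Lib.MP_1a91b9_nuI.Pe.PerV

/-!
# The four families: the periods
-/

set_option autoImplicit false

namespace Pool.Agent.Lib.MP_1a91b9_nuI

open NumberField IsDedekindDomain WeierstrassCurve
open Pool.Agent.Lib.MP_1a91b9_nuT.Per (perR perC perAt)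
open Pool.Agent.Lib.MP_1a91b9_nuT.S9 (normFactor period)

theorem R6.two : R6 2 := ⟨1, 0, by simp⟩

theorem R6.three : R6 3 := ⟨0, 1, by simp⟩

section
variable {N : Type*} [Field N] [NumberField N]

/-- comparison of the periods at an infinite place -/
def Cmp (W W' : WeierstrassCurve N) : Prop :=
  ∀ v : InfinitePlace N, ∃ x : ℝ, R6 x ∧ perAt W v = x * perAt W' v

theorem Cmp.prod {W W' : WeierstrassCurve N} (h : Cmp W W') :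
    ∃ x : ℝ, R6 x ∧ ∏ v : InfinitePlace N, perAt W v = x * ∏ v : InfinitePlace N, perAt W' v := by
  choose x hx hx' using h
  refine ⟨∏ v : InfinitePlace N, x v, ?_, ?_⟩
  · exact Finset.prod_induction _ R6 (fun _ _ => R6.mul) R6.one fun v _ => hx v
  · rw [← Finset.prod_mul_distrib]
    exact Finset.prod_congr rfl fun v _ => hx' v

variable [Pool.Agent.Lib.MP_1a91b9_nuT.CD]

theorem cmp_two (W W' : WeierstrassCurve N) (h : Rel2 W W')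
    (hr : ∀ v : InfinitePlace N, ∀ hv : v.IsReal, ∃ x : ℝ, R6 x ∧
      perR (W.map (InfinitePlace.embedding_of_isReal hv)) =
        x * perR (W'.map (InfinitePlace.embedding_of_isReal hv))) : Cmp W W' := by
  intro v
  by_cases hv : v.IsReal
  · obtain ⟨x, hx, hx'⟩ := hr v hv
    refine ⟨x, hx, ?_⟩
    rw [perAt, perAt, dif_pos hv, dif_pos hv, hx']
  · refine ⟨2, R6.two, ?_⟩
    rw [perAt, perAt, dif_neg hv, dif_neg hv, perC_two _ _ (h.map v.embedding)]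

theorem cmp_three (W W' : WeierstrassCurve N) (h : Rel3 W W') : Cmp W W' := by
  intro v
  by_cases hv : v.IsReal
  · have h1 := perR_three _ _ (h.map (InfinitePlace.embedding_of_isReal hv))
    have h2 := (h.map (InfinitePlace.embedding_of_isReal hv)).c0
    rcases lt_or_gt_of_ne h2 with h3 | h3
    · refine ⟨1, R6.one, ?_⟩
      rw [perAt, perAt, dif_pos hv, dif_pos hv, h1.2 h3, one_mul]
    · refine ⟨3, R6.three, ?_⟩
      rw [perAt, perAt, dif_pos hv, dif_pos hv, h1.1 h3]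
  · refine ⟨3, R6.three, ?_⟩
    rw [perAt, perAt, dif_neg hv, dif_neg hv, perC_three _ _ (h.map v.embedding)]
    ring

theorem period_ratio (W W' : WeierstrassCurve N) (hc : Cmp W W') (hΔ : W.Δ ≠ 0)
    (hΔ' : W'.Δ ≠ 0) (j j' : ℤ) (hj : HasJ W j) (hj' : HasJ W' j') (a b : ℤ)
    (hr : W.Δ = (2 : N) ^ a * 3 ^ b * W'.Δ ∨ W.Δ = -((2 : N) ^ a * 3 ^ b * W'.Δ)) :
    ∃ x : ℝ, R6 x ∧ period W = x * period W' := by
  obtain ⟨x, hx, hx'⟩ := hc.prod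
  obtain ⟨y, hy, hy'⟩ := prod_ratio W W' hΔ hΔ' j j' hj hj' a b hr
  refine ⟨y * x, hy.mul hx, ?_⟩
  rw [period, period, hx', hy']
  ring

end

/-- the real condition, `b < 0` -/
theorem hs_neg (A B : ℝ) (hB : B < 0) (X : ℝ) : 0 < (X - A) ^ 2 - 4 * B := by
  nlinarith [sq_nonneg (X - A)]

section
variable {F : Type*} [Field F] [CharZero F]

theorem P2.hasJ₁ {r a' b' a b j' : ℤ} (h : P2 r a' b' a b) (D : F)
    (hj' : HasJ (cv (a' * D ^ 2) (b' * D ^ 3)) j') :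
    HasJ (E2 (3 * r * D) ((3 * r ^ 2 + a') * D ^ 2)) j' := by
  rw [← h.e1 D]
  exact hasJ_change _ _ j' hj'

theorem P2.hasJ₂ {r a' b' a b j : ℤ} (h : P2 r a' b' a b) (D : F)
    (hj : HasJ (cv (a * D ^ 2) (b * D ^ 3)) j) :
    HasJ (E2 (-2 * (3 * r * D)) ((3 * r * D) ^ 2 - 4 * ((3 * r ^ 2 + a') * D ^ 2))) j := by
  rw [← h.e2 D]
  exact hasJ_change _ _ j (hasJ_change _ _ j hj)

end

section
variable {N : Type*} [Field N] [NumberField N] [Pool.Agent.Lib.MP_1a91b9_nuT.CD]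

theorem P2.per {r a' b' a b j' j : ℤ} (h : P2 r a' b' a b) (D : N) (hD : D ≠ 0)
    (hj' : HasJ (cv (a' * D ^ 2) (b' * D ^ 3)) j')
    (hj : HasJ (cv (a * D ^ 2) (b * D ^ 3)) j)
    (hr : ∀ σ : N →+* ℝ, ∃ x : ℝ, R6 x ∧
      perR (E2 (3 * r * σ D) ((3 * r ^ 2 + a') * σ D ^ 2)) =
        x * perR (E2 (-2 * (3 * r * σ D))
          ((3 * r * σ D) ^ 2 - 4 * ((3 * r ^ 2 + a') * σ D ^ 2))))
    (m : ℕ) (hm : -3 * r ^ 2 - 4 * a' = (3 * r ^ 2 + a' : ℤ) * 2 ^ m ∨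
      -3 * r ^ 2 - 4 * a' = -((3 * r ^ 2 + a' : ℤ) * 2 ^ m)) :
    ∃ x : ℝ, R6 x ∧ period (cv ((a' : N) * D ^ 2) (b' * D ^ 3)) =
      x * period (cv ((a : N) * D ^ 2) (b * D ^ 3)) := by
  have hR := h.rel D hD
  have hΔ₁ : (cv ((a' : N) * D ^ 2) (b' * D ^ 3)).Δ ≠ 0 := by
    have h1 := hR.Δ
    rw [← h.e1 D, variableChange_Δ] at h1
    exact right_ne_zero_of_mul h1
  have hΔ₂ : (cv ((a : N) * D ^ 2) (b * D ^ 3)).Δ ≠ 0 := by
    have h1 := hR.Δ'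
    rw [← h.e2 D, variableChange_Δ, variableChange_Δ] at h1
    exact right_ne_zero_of_mul (right_ne_zero_of_mul h1)
  have e1 := period_vc (cv ((a' : N) * D ^ 2) (b' * D ^ 3)) hΔ₁ ⟨1, r * D, 0, 0⟩
  have e2 := period_vc (cv ((a : N) * D ^ 2) (b * D ^ 3)) hΔ₂
    ⟨(Units.mk0 2 two_ne_zero)⁻¹, 0, 0, 0⟩
  have hΔ₃ : ((⟨(Units.mk0 2 two_ne_zero)⁻¹, 0, 0, 0⟩ : VariableChange N) •
      cv ((a : N) * D ^ 2) (b * D ^ 3)).Δ ≠ 0 := by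
    have h1 := hR.Δ'
    rw [← h.e2 D, variableChange_Δ] at h1
    exact right_ne_zero_of_mul h1
  have e3 := period_vc _ hΔ₃ ⟨1, -2 * r * D, 0, 0⟩
  rw [h.e1 D] at e1
  rw [h.e2 D] at e3
  rw [← e1, ← e2, ← e3]
  refine period_ratio _ _ (cmp_two _ _ hR fun v hv => ?_) hR.Δ hR.Δ' j' j (h.hasJ₁ D hj')
    (h.hasJ₂ D hj) (-(4 + m : ℕ)) 0 ?_
  · obtain ⟨x, hx, hx'⟩ := hr (InfinitePlace.embedding_of_isReal hv)
    refine ⟨x, hx, ?_⟩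
    rw [E2_map, E2_map]
    simp only [map_mul, map_add, map_sub, map_neg, map_pow, map_ofNat, map_intCast]
    exact hx'
  · have d1 : (E2 (3 * r * D) ((3 * r ^ 2 + a') * D ^ 2)).Δ =
        16 * ((3 * r ^ 2 + a') * D ^ 2) ^ 2 * ((-3 * r ^ 2 - 4 * a') * D ^ 2) := by
      rw [E2_Δ]
      ring
    have d2 : (E2 (-2 * (3 * r * D))
        ((3 * r * D) ^ 2 - 4 * ((3 * (r : N) ^ 2 + a') * D ^ 2))).Δ =
        2 ^ 4 * 16 * ((3 * r ^ 2 + a') * D ^ 2) * ((-3 * r ^ 2 - 4 * a') * D ^ 2) ^ 2 := by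
      rw [E2_Δ]
      ring
    rw [d1, d2, zpow_neg, zpow_natCast, zpow_zero, mul_one, pow_add]
    have h2 : (2 : N) ^ m ≠ 0 := pow_ne_zero m two_ne_zero
    have h4 : (2 : N) ^ 4 ≠ 0 := pow_ne_zero 4 two_ne_zero
    rcases hm with hm | hm
    · left
      have hm' : (-3 * (r : N) ^ 2 - 4 * a') = (3 * r ^ 2 + a') * 2 ^ m := by
        exact_mod_cast congrArg (Int.cast : ℤ → N) hm
      rw [hm', eq_comm, inv_mul_eq_iff_eq_mul₀ (mul_ne_zero h4 h2)]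
      ring
    · right
      have hm' : (-3 * (r : N) ^ 2 - 4 * a') = -((3 * r ^ 2 + a') * 2 ^ m) := by
        exact_mod_cast congrArg (Int.cast : ℤ → N) hm
      rw [hm', eq_comm, neg_eq_iff_eq_neg, inv_mul_eq_iff_eq_mul₀ (mul_ne_zero h4 h2)]
      ring

omit [NumberField N] in
theorem perR_neg (s : ℝ) (hs : s < 0) :
    perR (E2 (3 * ((2 : ℤ) : ℝ) * s) ((3 * ((2 : ℤ) : ℝ) ^ 2 + ((-11 : ℤ) : ℝ)) * s ^ 2)) =
      perR (E2 (-2 * (3 * ((2 : ℤ) : ℝ) * s))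
        ((3 * ((2 : ℤ) : ℝ) * s) ^ 2 - 4 * ((3 * ((2 : ℤ) : ℝ) ^ 2 + ((-11 : ℤ) : ℝ)) * s ^ 2))) := by
  have h1 := p2_16.rel' s hs.ne
  have h2 := perR_two _ _ h1 (by
    rw [← E2_dual two_ne_zero]
    intro X hX
    have hX' : 0 < X * (X ^ 2 + 24 * s * X + 16 * s ^ 2) := by
      have e : X ^ 3 + (E2 (-2 * (-2 * (3 * ((2 : ℤ) : ℝ) * s)))
          ((-2 * (3 * ((2 : ℤ) : ℝ) * s)) ^ 2 - 4 * ((3 * ((2 : ℤ) : ℝ) * s) ^ 2 -
            4 * ((3 * ((2 : ℤ) : ℝ) ^ 2 + ((-11 : ℤ) : ℝ)) * s ^ 2)))).a₂ * X ^ 2 +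
          (E2 (-2 * (-2 * (3 * ((2 : ℤ) : ℝ) * s)))
          ((-2 * (3 * ((2 : ℤ) : ℝ) * s)) ^ 2 - 4 * ((3 * ((2 : ℤ) : ℝ) * s) ^ 2 -
            4 * ((3 * ((2 : ℤ) : ℝ) ^ 2 + ((-11 : ℤ) : ℝ)) * s ^ 2)))).a₄ * X =
          X * (X ^ 2 + 24 * s * X + 16 * s ^ 2) := by
        simp only [E2]
        push_cast
        ring
      rw [← e]
      exact hX
    have e' : (X - (E2 (-2 * (3 * ((2 : ℤ) : ℝ) * s)) ((3 * ((2 : ℤ) : ℝ) * s) ^ 2 -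
        4 * ((3 * ((2 : ℤ) : ℝ) ^ 2 + ((-11 : ℤ) : ℝ)) * s ^ 2))).a₂) ^ 2 -
        4 * (E2 (-2 * (3 * ((2 : ℤ) : ℝ) * s)) ((3 * ((2 : ℤ) : ℝ) * s) ^ 2 -
        4 * ((3 * ((2 : ℤ) : ℝ) ^ 2 + ((-11 : ℤ) : ℝ)) * s ^ 2))).a₄ =
        X ^ 2 + 24 * s * X + 16 * s ^ 2 := by
      simp only [E2]
      push_cast
      ring
    rw [e']
    by_cases hX0 : 0 < X
    · exact (mul_pos_iff_of_pos_left hX0).1 hX'
    · have h3 : 0 ≤ s * X := mul_nonneg_of_nonpos_of_nonpos hs.le (not_lt.1 hX0)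
      have h4 : 0 < s ^ 2 := by
        have hne := hs.ne
        positivity
      nlinarith [sq_nonneg X])
  rw [Pool.Agent.Lib.MP_1a91b9_nuT.CT.perR_vc] at h2
  rw [h2, ← mul_assoc]
  have h5 : (2 : ℝ) * |(((Units.mk0 (2 : ℝ) two_ne_zero)⁻¹ : ℝˣ) : ℝ)| = 1 := by
    rw [Units.val_inv_eq_inv_val, Units.val_mk0, abs_of_pos (by norm_num)]
    norm_num
  rw [h5, one_mul]

/-- the ratio of the periods, degree 3 -/
theorem T3.per (D : N) (hD : D ≠ 0) : ∃ x : ℝ, R6 x ∧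
    period (cv (((0 : ℤ) : N) * D ^ 2) (((2 : ℤ) : N) * D ^ 3)) =
      x * period (cv (((-120 : ℤ) : N) * D ^ 2) (((506 : ℤ) : N) * D ^ 3)) := by
  have hR := T3.rel D hD
  have e1 := T3.e1 D
  have e2 := T3.e2 D
  have hΔ₁ : (cv (((0 : ℤ) : N) * D ^ 2) (((2 : ℤ) : N) * D ^ 3)).Δ ≠ 0 := by
    have h1 := hR.Δ
    rw [← e1, variableChange_Δ] at h1
    exact right_ne_zero_of_mul h1
  have hΔ₂ : (cv (((-120 : ℤ) : N) * D ^ 2) (((506 : ℤ) : N) * D ^ 3)).Δ ≠ 0 := by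
    have h1 := hR.Δ'
    rw [← e2, variableChange_Δ] at h1
    exact right_ne_zero_of_mul h1
  have f1 := period_vc _ hΔ₁ ⟨1, -2 * D, 0, 0⟩
  have f2 := period_vc _ hΔ₂ ⟨1, -2 * D, 0, 0⟩
  have j1 : HasJ (E3 (-6 * D) (12 * D ^ 2) (-6 * D ^ 3)) 0 := by
    rw [← e1]
    apply hasJ_change
    apply hasJ_cv
    push_cast
    ring
  have j2 : HasJ (E3 (-6 * D) (-9 * (12 * D ^ 2))
      (-27 * (-6 * D ^ 3) - 8 * (-6 * D) * (12 * D ^ 2))) (-12288000) := by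
    rw [← e2]
    apply hasJ_change
    apply hasJ_cv
    push_cast
    ring
  rw [e1] at f1
  rw [e2] at f2
  rw [← f1, ← f2]
  refine period_ratio _ _ (cmp_three _ _ hR) hR.Δ hR.Δ' 0 (-12288000) j1 j2 0 (-2) (Or.inl ?_)
  rw [← e1, ← e2, variableChange_Δ, variableChange_Δ, cv_Δ, cv_Δ]
  push_cast
  rw [zpow_neg]
  norm_num
  ring

/-- the ratio of the periods -/
theorem Four.per {a' b' a b : ℤ} {n : ℕ} {j' j d : ℤ} (h : Four a' b' a b n j' j d) (D : N)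
    (hD : D ≠ 0) : ∃ x : ℝ, R6 x ∧ period (cv ((a' : N) * D ^ 2) (b' * D ^ 3)) =
      x * period (cv ((a : N) * D ^ 2) (b * D ^ 3)) := by
  have h1 := h.hasJ' D
  have h2 := h.hasJ D
  rcases h with ⟨rfl, rfl, rfl, rfl, rfl, rfl, rfl, rfl⟩ | ⟨rfl, rfl, rfl, rfl, rfl, rfl, rfl, rfl⟩ |
    ⟨rfl, rfl, rfl, rfl, rfl, rfl, rfl, rfl⟩ | ⟨rfl, rfl, rfl, rfl, rfl, rfl, rfl, rfl⟩
  · refine p2_12.per D hD h1 h2 (fun σ => ⟨2, R6.two, ?_⟩) 4 (Or.inr (by norm_num))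
    have hs : σ D ≠ 0 := (map_ne_zero σ).2 hD
    refine perR_two _ _ (p2_12.rel (σ D) hs) fun X _ => hs_neg _ _ ?_ X
    show (3 * ((2 : ℤ) : ℝ) ^ 2 + ((-15 : ℤ) : ℝ)) * σ D ^ 2 < 0
    have h3 : 0 < σ D ^ 2 := by positivity
    push_cast
    nlinarith
  · refine p2_16.per D hD h1 h2 (fun σ => ?_) 5 (Or.inl (by norm_num))
    have hs : σ D ≠ 0 := (map_ne_zero σ).2 hD
    rcases lt_or_gt_of_ne hs with h0 | h0
    · refine ⟨1, R6.one, ?_⟩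
      rw [one_mul]
      exact perR_neg (σ D) h0
    · refine ⟨2, R6.two, perR_two _ _ (p2_16.rel (σ D) hs) fun X hX => ?_⟩
      have hX' : 0 < X * (X ^ 2 - 12 * σ D * X + 32 * σ D ^ 2) := by
        have e : X ^ 3 + (E2 (-2 * (3 * ((2 : ℤ) : ℝ) * σ D)) ((3 * ((2 : ℤ) : ℝ) * σ D) ^ 2 -
            4 * ((3 * ((2 : ℤ) : ℝ) ^ 2 + ((-11 : ℤ) : ℝ)) * σ D ^ 2))).a₂ * X ^ 2 +
            (E2 (-2 * (3 * ((2 : ℤ) : ℝ) * σ D)) ((3 * ((2 : ℤ) : ℝ) * σ D) ^ 2 -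
            4 * ((3 * ((2 : ℤ) : ℝ) ^ 2 + ((-11 : ℤ) : ℝ)) * σ D ^ 2))).a₄ * X =
            X * (X ^ 2 - 12 * σ D * X + 32 * σ D ^ 2) := by
          simp only [E2]
          push_cast
          ring
        rw [← e]
        exact hX
      have e' : (X - (E2 (3 * ((2 : ℤ) : ℝ) * σ D) ((3 * ((2 : ℤ) : ℝ) ^ 2 +
          ((-11 : ℤ) : ℝ)) * σ D ^ 2)).a₂) ^ 2 - 4 * (E2 (3 * ((2 : ℤ) : ℝ) * σ D)
          ((3 * ((2 : ℤ) : ℝ) ^ 2 + ((-11 : ℤ) : ℝ)) * σ D ^ 2)).a₄ =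
          X ^ 2 - 12 * σ D * X + 32 * σ D ^ 2 := by
        simp only [E2]
        push_cast
        ring
      rw [e']
      by_cases hX0 : 0 < X
      · exact (mul_pos_iff_of_pos_left hX0).1 hX'
      · have h3 : 0 ≤ σ D * (-X) := mul_nonneg h0.le (by linarith)
        have h4 : 0 < σ D ^ 2 := by positivity
        nlinarith [sq_nonneg X]
  · refine p2_28.per D hD h1 h2 (fun σ => ⟨2, R6.two, ?_⟩) 8 (Or.inr (by norm_num))
    have hs : σ D ≠ 0 := (map_ne_zero σ).2 hD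
    refine perR_two _ _ (p2_28.rel (σ D) hs) fun X _ => hs_neg _ _ ?_ X
    show (3 * ((14 : ℤ) : ℝ) ^ 2 + ((-595 : ℤ) : ℝ)) * σ D ^ 2 < 0
    have h3 : 0 < σ D ^ 2 := by positivity
    push_cast
    nlinarith
  · obtain ⟨x, hx, hx'⟩ := T3.per D hD
    refine ⟨x⁻¹, hx.inv, ?_⟩
    rw [hx', ← mul_assoc, inv_mul_cancel₀ hx.pos.ne', one_mul]

end

end Pool.Agent.Lib.MP_1a91b9_nuI
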