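import Pool.Agent.Lib.MP_1a91b9_nuI.Fa.Trans
import Pool.Agent.Lib.MP_1a91b9_nuI.Fa.FamP
import Pool.Agent.Lib.MP_1a91b9_nuI.Ho.ShaT
import Pool.Agent.Lib.MP_1a91b9_nuX.TM.Main
import Pool.Agent.Lib.MP_1a91b9_nuT3.R3.Defs

/-!
# The four families: transfer of the conclusions
-/

set_option autoImplicit false

namespace Pool.Agent.Lib.MP_1a91b9_nuI

open NumberField IsDedekindDomain WeierstrassCurve Module
open Pool.Agent.Lib.MP_1a91b9_nuT.S9 (period tam)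
open Pool.Agent.Lib.MP_1a91b9_nuT3.S9 (ShaP FormulaQ)

/-- The conclusion for the first question. -/
def Con1 (N : Type) [Field N] [NumberField N] (W : WeierstrassCurve N) : Prop :=
  (∃ g : ℂ → ℂ, Differentiable ℂ g ∧ (∀ s : ℂ, 3 / 2 < s.re → g s = W.LSeries s) ∧
    g 1 ≠ 0) ∧ Finite W.toAffine.Point

/-- The conclusion for the second question. -/
def Con2 (ℓ : ℕ) [Fact ℓ.Prime] (N : Type) [Field N] [NumberField N] (W : WeierstrassCurve N) :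
    Prop :=
  ∀ g : ℂ → ℂ, Differentiable ℂ g → (∀ s : ℂ, 3 / 2 < s.re → g s = W.LSeries s) →
    FormulaQ ℓ W g ∧ Nat.card (ShaP ℓ W) = 1 ∧
      (∀ v : HeightOneSpectrum (𝓞 N), (tam W v).Coprime ℓ) ∧
      Finite W.toAffine.Point ∧ (Nat.card W.toAffine.Point).Coprime ℓ

section
variable {ℓ : ℕ} [hℓ : Fact ℓ.Prime]

theorem val_zero {q : ℚ} (hq : q ≠ 0) :
    (IsCoprime q.num (ℓ : ℤ) ∧ q.den.Coprime ℓ) ↔ padicValRat ℓ q = 0 := by
  have hnum : q.num.natAbs ≠ 0 := Int.natAbs_ne_zero.2 (Rat.num_ne_zero.2 hq)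
  have e1 : IsCoprime q.num (ℓ : ℤ) ↔ ¬ ℓ ∣ q.num.natAbs := by
    rw [Int.isCoprime_iff_gcd_eq_one, Int.gcd, Int.natAbs_natCast, ← Nat.Coprime,
      Nat.coprime_comm, hℓ.out.coprime_iff_not_dvd]
  have e2 : q.den.Coprime ℓ ↔ ¬ ℓ ∣ q.den := by
    rw [Nat.coprime_comm, hℓ.out.coprime_iff_not_dvd]
  have hred : Nat.Coprime q.num.natAbs q.den := q.reduced
  rw [e1, e2, padicValRat_def, padicValInt]
  constructor
  · rintro ⟨h1, h2⟩
    rw [padicValNat.eq_zero_of_not_dvd h1, padicValNat.eq_zero_of_not_dvd h2]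
    rfl
  · intro h
    have h3 : padicValNat ℓ q.num.natAbs = padicValNat ℓ q.den := by omega
    have key : ¬ (ℓ ∣ q.num.natAbs ∧ ℓ ∣ q.den) := by
      rintro ⟨h4, h5⟩
      have h6 := Nat.dvd_gcd h4 h5
      rw [hred] at h6
      exact hℓ.out.one_lt.ne' (Nat.dvd_one.1 h6)
    have i1 : ℓ ∣ q.num.natAbs ↔ padicValNat ℓ q.num.natAbs ≠ 0 :=
      (dvd_iff_padicValNat_ne_zero hnum)
    have i2 : ℓ ∣ q.den ↔ padicValNat ℓ q.den ≠ 0 := dvd_iff_padicValNat_ne_zero q.den_nz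
    by_contra hcon
    rcases not_and_or.1 hcon with h4 | h4
    · have h5 := not_not.1 h4
      exact key ⟨h5, i2.2 (by rw [← h3]; exact i1.1 h5)⟩
    · have h5 := not_not.1 h4
      exact key ⟨i1.2 (by rw [h3]; exact i2.1 h5), h5⟩

theorem val_nat {m : ℕ} (h : m.Coprime ℓ) : padicValRat ℓ (m : ℚ) = 0 := by
  rw [padicValRat.of_nat, padicValNat.eq_zero_of_not_dvd]
  · rfl
  · rwa [Nat.coprime_comm, hℓ.out.coprime_iff_not_dvd] at h

/-- the transfer of the formula -/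
theorem formula_transfer {N : Type} [Field N] [NumberField N] (W V : WeierstrassCurve N)
    {g : ℂ → ℂ} {x : ℝ} (h2 : ℓ ≠ 2) (h3 : ℓ ≠ 3) (hx : R6 x) (hp : period W = x * period V)
    (hV : FormulaQ ℓ V g) (sV : Nat.card (ShaP ℓ V) = 1) (sW : Nat.card (ShaP ℓ W) = 1)
    (tV : ∀ v : HeightOneSpectrum (𝓞 N), (tam V v).Coprime ℓ)
    (tW : ∀ v : HeightOneSpectrum (𝓞 N), (tam W v).Coprime ℓ)
    (cV : (Nat.card V.toAffine.Point).Coprime ℓ) (cW : (Nat.card W.toAffine.Point).Coprime ℓ) :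
    FormulaQ ℓ W g := by
  obtain ⟨q, hq1, hq2, hq⟩ := hV
  obtain ⟨a, b, hxab⟩ := hx
  obtain ⟨T, hT⟩ : ∃ T : ℕ, T = ∏ᶠ v : HeightOneSpectrum (𝓞 N), tam V v := ⟨_, rfl⟩
  obtain ⟨T', hT'⟩ : ∃ T : ℕ, T = ∏ᶠ v : HeightOneSpectrum (𝓞 N), tam W v := ⟨_, rfl⟩
  have hTc : T.Coprime ℓ := by
    rw [hT]
    exact finprod_induction (p := fun n : ℕ => n.Coprime ℓ) (Nat.coprime_one_left ℓ)
      (fun _ _ => Nat.Coprime.mul_left) tV
  have hTc' : T'.Coprime ℓ := by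
    rw [hT']
    exact finprod_induction (p := fun n : ℕ => n.Coprime ℓ) (Nat.coprime_one_left ℓ)
      (fun _ _ => Nat.Coprime.mul_left) tW
  obtain ⟨c, hc⟩ : ∃ c : ℕ, c = Nat.card V.toAffine.Point := ⟨_, rfl⟩
  obtain ⟨c', hc'⟩ : ∃ c : ℕ, c = Nat.card W.toAffine.Point := ⟨_, rfl⟩
  rw [← hc] at cV
  rw [← hc'] at cW
  have nz : ∀ m : ℕ, m.Coprime ℓ → m ≠ 0 := by
    rintro m hm rfl
    rw [Nat.coprime_zero_left] at hm
    exact hℓ.out.one_lt.ne' hm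
  rw [← hT, sV, ← hc] at hq
  have hT0 := nz T hTc
  have hT0' := nz T' hTc'
  have hc0 := nz c cV
  have hc0' := nz c' cW
  have hq0 : q ≠ 0 := by
    rintro rfl
    rw [Rat.num_zero, isCoprime_zero_left] at hq1
    have h4 := Int.isUnit_iff.1 hq1
    have h5 := hℓ.out.one_lt
    omega
  have q2 : padicValRat ℓ (2 : ℚ) = 0 := by
    have h4 := val_nat (ℓ := ℓ) (m := 2) ((Nat.coprime_primes Nat.prime_two hℓ.out).2 h2.symm)
    exact_mod_cast h4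
  have q3 : padicValRat ℓ (3 : ℚ) = 0 := by
    have h4 := val_nat (ℓ := ℓ) (m := 3) ((Nat.coprime_primes Nat.prime_three hℓ.out).2 h3.symm)
    exact_mod_cast h4
  obtain ⟨r, hr⟩ : ∃ r : ℚ, r = q * ((2 : ℚ) ^ a * 3 ^ b)⁻¹ * ((T : ℚ) / (c : ℚ) ^ 2) *
      ((T' : ℚ) / (c' : ℚ) ^ 2)⁻¹ := ⟨_, rfl⟩
  have z2 : ((2 : ℚ) ^ a) ≠ 0 := zpow_ne_zero a two_ne_zero
  have z3 : ((3 : ℚ) ^ b) ≠ 0 := zpow_ne_zero b three_ne_zero
  have zT : (T : ℚ) ≠ 0 := by exact_mod_cast hT0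
  have zT' : (T' : ℚ) ≠ 0 := by exact_mod_cast hT0'
  have zc : (c : ℚ) ^ 2 ≠ 0 := pow_ne_zero 2 (by exact_mod_cast hc0)
  have zc' : (c' : ℚ) ^ 2 ≠ 0 := pow_ne_zero 2 (by exact_mod_cast hc0')
  have hr0 : r ≠ 0 := by
    rw [hr]
    exact mul_ne_zero (mul_ne_zero (mul_ne_zero hq0 (inv_ne_zero (mul_ne_zero z2 z3)))
      (div_ne_zero zT zc)) (inv_ne_zero (div_ne_zero zT' zc'))
  have hrv : padicValRat ℓ r = 0 := by
    rw [hr, padicValRat.mul (mul_ne_zero (mul_ne_zero hq0 (inv_ne_zero (mul_ne_zero z2 z3)))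
        (div_ne_zero zT zc)) (inv_ne_zero (div_ne_zero zT' zc')),
      padicValRat.mul (mul_ne_zero hq0 (inv_ne_zero (mul_ne_zero z2 z3))) (div_ne_zero zT zc),
      padicValRat.mul hq0 (inv_ne_zero (mul_ne_zero z2 z3)), padicValRat.inv, padicValRat.inv,
      padicValRat.div zT zc, padicValRat.div zT' zc', padicValRat.mul z2 z3,
      padicValRat.pow, padicValRat.pow, padicValRat.zpow, padicValRat.zpow, q2, q3, val_nat hTc,
      val_nat hTc', val_nat cV, val_nat cW, (val_zero hq0).1 ⟨hq1, hq2⟩]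
    ring
  obtain ⟨hr1, hr2⟩ := (val_zero hr0).2 hrv
  refine ⟨r, hr1, hr2, ?_⟩
  rw [← hT', sW, ← hc', hp]
  have hx0 : x ≠ 0 := by
    rw [hxab]
    positivity
  have e1 : g 1 * (√|(discr N : ℝ)| : ℝ) / ((x * period V : ℝ) : ℂ) =
      ((x⁻¹ : ℝ) : ℂ) * (g 1 * (√|(discr N : ℝ)| : ℝ) / (period V : ℝ)) := by
    push_cast
    rw [mul_comm (x : ℂ), ← div_div, div_eq_inv_mul]
  rw [e1, hq, ← Complex.ofReal_mul]
  congr 1
  rw [hr, hxab]
  have y2 : ((2 : ℝ) ^ a) ≠ 0 := zpow_ne_zero a two_ne_zero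
  have y3 : ((3 : ℝ) ^ b) ≠ 0 := zpow_ne_zero b three_ne_zero
  have yT' : (T' : ℝ) ≠ 0 := by exact_mod_cast hT0'
  have yc' : (c' : ℝ) ≠ 0 := by exact_mod_cast hc0'
  have yc : (c : ℝ) ≠ 0 := by exact_mod_cast hc0
  push_cast
  field_simp

end

end Pool.Agent.Lib.MP_1a91b9_nuI
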