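import Pool.Agent.Lib.MP_1a91b9_nuI.Fa.FamQ

/-!
# The four families: the conclusions
-/

set_option autoImplicit false

namespace Pool.Agent.Lib.MP_1a91b9_nuI

open NumberField IsDedekindDomain WeierstrassCurve Module
open Pool.Agent.Lib.MP_1a91b9_nuT.S9 (period tam)
open Pool.Agent.Lib.MP_1a91b9_nuT3.S9 (ShaP FormulaQ)

section
variable {a' b' a b : ℤ} {n : ℕ} {j' j d : ℤ}

theorem Four.lfW (h : Four a' b' a b n j' j d) {N : Type*} [Field N] [NumberField N]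
    (W : WeierstrassCurve N) (D : N) (C : VariableChange N)
    (hC : C • W = cv (a' * D ^ 2) (b' * D ^ 3)) :
    W.LFunction = (cv (a * D ^ 2) (b * D ^ 3)).LFunction := by
  have h1 : HasJ W j' := by
    have h2 := hasJ_change (C • W) C⁻¹ j' (by
      rw [hC]
      exact h.hasJ' D)
    rwa [inv_smul_smul] at h2
  rw [← h.lf D, ← hC, LFunction_change W C j' h1]

theorem lser_eq {N : Type*} [Field N] [NumberField N] {W V : WeierstrassCurve N}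
    (h : W.LFunction = V.LFunction) (s : ℂ) : W.LSeries s = V.LSeries s := by
  unfold WeierstrassCurve.LSeries
  rw [h]

theorem Four.q1 (h : Four a' b' a b n j' j d) (N : Type) [Field N] [NumberField N]
    (W : WeierstrassCurve N) (D : N) (hD : D ≠ 0)
    (hW : ∃ C : VariableChange N, C • W = cv (a' * D ^ 2) (b' * D ^ 3))
    (H : Con1 N (cv (a * D ^ 2) (b * D ^ 3))) : Con1 N W := by
  obtain ⟨C, hC⟩ := hW
  obtain ⟨⟨g, g1, g2, g3⟩, hf⟩ := H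
  obtain ⟨i⟩ := h.isg D hD
  exact ⟨⟨g, g1, fun s hs => by rw [g2 s hs, lser_eq (h.lfW W D C hC)], g3⟩,
    ((Isg.ofChange' C hC).comp i).finite hf⟩

theorem Four.n23 (h : Four a' b' a b n j' j d) : n = 2 ∨ n = 3 := by
  rcases h with ⟨_, _, _, _, h, _⟩ | ⟨_, _, _, _, h, _⟩ | ⟨_, _, _, _, h, _⟩ |
    ⟨_, _, _, _, h, _⟩
  · exact Or.inl h
  · exact Or.inl h
  · exact Or.inl h
  · exact Or.inr h

theorem Four.jdvd (h : Four a' b' a b n j' j d) (D : ℤ) :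
    6912 * (a' * D ^ 2) ^ 3 = j' * (4 * (a' * D ^ 2) ^ 3 + 27 * (b' * D ^ 3) ^ 2) := by
  rcases h with ⟨rfl, rfl, rfl, rfl, rfl, rfl, rfl, rfl⟩ | ⟨rfl, rfl, rfl, rfl, rfl, rfl, rfl, rfl⟩ |
    ⟨rfl, rfl, rfl, rfl, rfl, rfl, rfl, rfl⟩ | ⟨rfl, rfl, rfl, rfl, rfl, rfl, rfl, rfl⟩ <;>
  ring

theorem Four.dne (h : Four a' b' a b n j' j d) : d ≠ 0 := by
  rcases h with ⟨_, _, _, _, _, _, _, rfl⟩ | ⟨_, _, _, _, _, _, _, rfl⟩ |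
    ⟨_, _, _, _, _, _, _, rfl⟩ | ⟨_, _, _, _, _, _, _, rfl⟩ <;> norm_num

theorem Four.discne (h : Four a' b' a b n j' j d) (D : ℤ) (hD : D ≠ 0) :
    4 * (a' * D ^ 2) ^ 3 + 27 * (b' * D ^ 3) ^ 2 ≠ 0 := by
  have hj' : j' ≠ 0 := by
    rcases h with ⟨_, _, _, _, _, rfl, _, _⟩ | ⟨_, _, _, _, _, rfl, _, _⟩ |
      ⟨_, _, _, _, _, rfl, _, _⟩ | ⟨_, _, _, _, _, rfl, _, _⟩ <;> norm_num
  intro h0
  have h1 := h.jdvd D
  rw [h0, mul_zero] at h1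
  have h2 : (a' * D ^ 2) ^ 3 = 0 := by omega
  have h3 : a' * D ^ 2 = 0 := pow_eq_zero_iff three_ne_zero |>.1 h2
  exact mul_ne_zero h.ne.1 (pow_ne_zero 2 hD) h3

theorem Four.good (h : Four a' b' a b n j' j d) {ℓ : ℕ} (hℓ : ℓ.Prime) (D₀ D₁ : ℤ)
    (hg : ¬ (ℓ : ℤ) ∣ 6 * d * (4 * (a' * D₀ ^ 2) ^ 3 + 27 * (b' * D₀ ^ 3) ^ 2))
    (hD₁ : D₁ = D₀ ∨ D₁ = D₀ * d) :
    ¬ (ℓ : ℤ) ∣ 6 * (4 * (a' * D₁ ^ 2) ^ 3 + 27 * (b' * D₁ ^ 3) ^ 2) := by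
  have hp : Prime (ℓ : ℤ) := Nat.prime_iff_prime_int.1 hℓ
  intro h1
  apply hg
  rcases hD₁ with rfl | rfl
  · obtain ⟨c, hc⟩ := h1
    exact ⟨d * c, by linear_combination d * hc⟩
  · have h2 : (ℓ : ℤ) ∣ d ^ 6 * (6 * (4 * (a' * D₀ ^ 2) ^ 3 + 27 * (b' * D₀ ^ 3) ^ 2)) := by
      obtain ⟨c, hc⟩ := h1
      exact ⟨c, by linear_combination hc⟩
    rcases hp.dvd_or_dvd h2 with h3 | ⟨c, hc⟩
    · obtain ⟨c, hc⟩ := hp.dvd_of_dvd_pow h3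
      exact ⟨c * (6 * (4 * (a' * D₀ ^ 2) ^ 3 + 27 * (b' * D₀ ^ 3) ^ 2)), by
        linear_combination (6 * (4 * (a' * D₀ ^ 2) ^ 3 + 27 * (b' * D₀ ^ 3) ^ 2)) * hc⟩
    · exact ⟨d * c, by linear_combination d * hc⟩

variable [Pool.Agent.Lib.MP_1a91b9_nuT.CD]

theorem Four.q2 (h : Four a' b' a b n j' j d) {ℓ : ℕ} [hℓ : Fact ℓ.Prime] (D₀ : ℤ)
    (hD₀ : D₀ ≠ 0)
    (hg : ¬ (ℓ : ℤ) ∣ 6 * d * (4 * (a' * D₀ ^ 2) ^ 3 + 27 * (b' * D₀ ^ 3) ^ 2))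
    (N : Type) [Field N] [NumberField N] (W : WeierstrassCurve N) (D : N) (hD : D ≠ 0)
    (hW : ∃ C : VariableChange N, C • W = cv (a' * D ^ 2) (b' * D ^ 3))
    (hW' : ∃ D₁ : ℤ, (D₁ = D₀ ∨ D₁ = D₀ * d) ∧
        ∃ C : VariableChange N, C • W = cv (a' * (D₁ : N) ^ 2) (b' * (D₁ : N) ^ 3))
    (H : Con2 ℓ N (cv (a * D ^ 2) (b * D ^ 3))) : Con2 ℓ N W := by
  obtain ⟨C, hC⟩ := hW
  obtain ⟨i⟩ := h.isg D hD
  intro g g1 g2
  obtain ⟨fV, sV, tV, nV, cV⟩ := H g g1 fun s hs => by rw [g2 s hs, lser_eq (h.lfW W D C hC)]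
  have h2 : ℓ ≠ 2 := by
    rintro rfl
    exact hg ⟨3 * d * (4 * (a' * D₀ ^ 2) ^ 3 + 27 * (b' * D₀ ^ 3) ^ 2), by push_cast; ring⟩
  have h3 : ℓ ≠ 3 := by
    rintro rfl
    exact hg ⟨2 * d * (4 * (a' * D₀ ^ 2) ^ 3 + 27 * (b' * D₀ ^ 3) ^ 2), by push_cast; ring⟩
  have hn : (1 * n).Coprime ℓ := by
    rw [one_mul]
    rcases h.n23 with rfl | rfl
    · exact (Nat.coprime_primes Nat.prime_two hℓ.out).2 h2.symm
    · exact (Nat.coprime_primes Nat.prime_three hℓ.out).2 h3.symm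
  obtain ⟨e, -⟩ : ∃ e : Isg W (cv ((a : N) * D ^ 2) (b * D ^ 3)) (1 * n), True :=
    ⟨(Isg.ofChange' C hC).comp i, trivial⟩
  have sW : Nat.card (ShaP ℓ W) = 1 := by
    obtain ⟨hs, hs'⟩ := Nat.card_eq_one_iff_unique.1 sV
    exact Nat.card_eq_one_iff_unique.2 ⟨e.sha ℓ hn hs, ⟨0⟩⟩
  have nW := e.finite nV
  have cW := e.coprime hℓ.out hn nV cV
  have tW : ∀ v : HeightOneSpectrum (𝓞 N), (tam W v).Coprime ℓ := by
    intro v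
    obtain ⟨D₁, hD₁, C₁, hC₁⟩ := hW'
    have hD₁0 : D₁ ≠ 0 := by
      rcases hD₁ with rfl | rfl
      · exact hD₀
      · exact mul_ne_zero hD₀ h.dne
    refine Pool.Agent.Lib.MP_1a91b9_nuX.TM.tam_cop (a := a' * D₁ ^ 2) (b := b' * D₁ ^ 3)
      (D := C₁) (h.discne D₁ hD₁0) ⟨j', ?_⟩ ?_ hℓ.out (h.good hℓ.out D₀ D₁ hg hD₁) v
    · rw [h.jdvd D₁, mul_comm]
    · rw [hC₁]
      push_cast
      rfl
  obtain ⟨x, hx, hx'⟩ := h.per D hD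
  have hΔ : W.Δ ≠ 0 := by
    have e1 : (C • W).Δ ≠ 0 := by
      rw [hC]
      intro h0
      have h4 := h.hasJ' D
      unfold HasJ at h4
      rw [h0, mul_zero, cv_c₄] at h4
      have h5 := pow_eq_zero_iff three_ne_zero |>.1 h4
      have h6 : (-48 : N) ≠ 0 := by norm_num
      have h7 := (mul_eq_zero.1 h5).resolve_left h6
      have h8 : (a' : N) ≠ 0 := by exact_mod_cast h.ne.1
      exact mul_ne_zero h8 (pow_ne_zero 2 hD) h7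
    rw [variableChange_Δ] at e1
    exact right_ne_zero_of_mul e1
  have hp : period W = x * period (cv ((a : N) * D ^ 2) (b * D ^ 3)) := by
    rw [← hx', ← hC, period_vc W hΔ C]
  exact ⟨formula_transfer W _ h2 h3 hx hp fV sV sW tV tW cV cW, sW, tW, nW, cW⟩

end

end Pool.Agent.Lib.MP_1a91b9_nuI
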