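import Pool.Agent.Lib.MP_1a91b9_nuI.Fa.FamT

/-!
# From the nine maximal orders to the thirteen orders
-/

set_option autoImplicit false

namespace Pool.Agent.Lib.MP_1a91b9_nuI

open NumberField IsDedekindDomain WeierstrassCurve Module

/-- the invariants of the nine maximal orders of class number one, with the discriminants of the
fields -/
def nine : List (ℤ × ℤ) :=
  [(0, -3), (1728, -4), (-3375, -7), (8000, -8), (-32768, -11), (-884736, -19),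
    (-884736000, -43), (-147197952000, -67), (-262537412640768000, -163)]

/-- the invariants of the thirteen orders of class number one, with the discriminants of the
fields -/
def thirteen : List (ℤ × ℤ) :=
  [(0, -3), (54000, -3), (-12288000, -3), (1728, -4), (287496, -4), (-3375, -7),
    (16581375, -7), (8000, -8), (-32768, -11), (-884736, -19), (-884736000, -43),
    (-147197952000, -67), (-262537412640768000, -163)]

theorem thirteen_cases {J d : ℤ} (h : (J, d) ∈ thirteen) :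
    (J, d) ∈ nine ∨ ∃ (a' b' a b : ℤ) (n : ℕ) (j : ℤ), Four a' b' a b n J j d := by
  simp only [thirteen, nine, List.mem_cons, Prod.mk.injEq, List.not_mem_nil, or_false] at h ⊢
  rcases h with ⟨rfl, rfl⟩ | ⟨rfl, rfl⟩ | ⟨rfl, rfl⟩ | ⟨rfl, rfl⟩ | ⟨rfl, rfl⟩ | ⟨rfl, rfl⟩ |
    ⟨rfl, rfl⟩ | ⟨rfl, rfl⟩ | ⟨rfl, rfl⟩ | ⟨rfl, rfl⟩ | ⟨rfl, rfl⟩ | ⟨rfl, rfl⟩ | ⟨rfl, rfl⟩
  · left; simp
  · exact Or.inr ⟨-15, 22, 0, 1, 2, 0, Or.inl ⟨rfl, rfl, rfl, rfl, rfl, rfl, rfl, rfl⟩⟩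
  · exact Or.inr ⟨-120, 506, 0, 2, 3, 0,
      Or.inr (Or.inr (Or.inr ⟨rfl, rfl, rfl, rfl, rfl, rfl, rfl, rfl⟩))⟩
  · left; simp
  · exact Or.inr ⟨-11, 14, -1, 0, 2, 1728,
      Or.inr (Or.inl ⟨rfl, rfl, rfl, rfl, rfl, rfl, rfl, rfl⟩)⟩
  · left; simp
  · exact Or.inr ⟨-595, 5586, -35, 98, 2, -3375,
      Or.inr (Or.inr (Or.inl ⟨rfl, rfl, rfl, rfl, rfl, rfl, rfl, rfl⟩))⟩
  · left; simp
  · left; simp
  · left; simp
  · left; simp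
  · left; simp
  · left; simp

/-- the second class -/
def cA (A B d : ℤ) : ℤ := if B = 0 then -4 * A else A * d ^ 2

theorem Four.jnine {a' b' a b : ℤ} {n : ℕ} {j' j d : ℤ} (h : Four a' b' a b n j' j d) :
    (j, d) ∈ nine := by
  rcases h with ⟨_, _, _, _, _, _, rfl, rfl⟩ | ⟨_, _, _, _, _, _, rfl, rfl⟩ |
    ⟨_, _, _, _, _, _, rfl, rfl⟩ | ⟨_, _, _, _, _, _, rfl, rfl⟩ <;> simp [nine]

theorem Four.jV {a' b' a b : ℤ} {n : ℕ} {j' j d : ℤ} (h : Four a' b' a b n j' j d) (D : ℤ) :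
    6912 * (a * D ^ 2) ^ 3 = j * (4 * (a * D ^ 2) ^ 3 + 27 * (b * D ^ 3) ^ 2) := by
  rcases h with ⟨rfl, rfl, rfl, rfl, rfl, rfl, rfl, rfl⟩ | ⟨rfl, rfl, rfl, rfl, rfl, rfl, rfl, rfl⟩ |
    ⟨rfl, rfl, rfl, rfl, rfl, rfl, rfl, rfl⟩ | ⟨rfl, rfl, rfl, rfl, rfl, rfl, rfl, rfl⟩ <;>
  ring

theorem Four.discV {a' b' a b : ℤ} {n : ℕ} {j' j d : ℤ} (h : Four a' b' a b n j' j d) (D : ℤ)
    (hD : D ≠ 0) : 4 * (a * D ^ 2) ^ 3 + 27 * (b * D ^ 3) ^ 2 ≠ 0 := by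
  obtain ⟨c, hc, -⟩ := h.disc D
  intro h0
  rw [h0, mul_zero] at hc
  exact h.discne D hD hc

/-- the two curves without hypothesis on the L-function -/
theorem Four.spec {a' b' a b : ℤ} {n : ℕ} {j' j d : ℤ} (h : Four a' b' a b n j' j d) (D : ℤ)
    (hD : D ≠ 0) (hs : (a' * D ^ 2 = 0 ∧ b' * D ^ 3 = 16) ∨
      (a' * D ^ 2 = -480 ∧ b' * D ^ 3 = 4048)) :
    D = 2 ∧ a' = -120 ∧ b' = 506 ∧ a = 0 ∧ b = 2 ∧ d = -3 := by
  have hne : a' * D ^ 2 ≠ 0 := mul_ne_zero h.ne.1 (pow_ne_zero 2 hD)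
  obtain ⟨h1, h2⟩ := hs.resolve_left fun h0 => hne h0.1
  have hb : ∀ m : ℤ, 0 ≤ m → D ^ 2 ≤ m ^ 2 → -m ≤ D ∧ D ≤ m := fun m hm h3 =>
    abs_le_of_sq_le_sq' h3 hm
  rcases h with ⟨rfl, rfl, rfl, rfl, rfl, rfl, rfl, rfl⟩ | ⟨rfl, rfl, rfl, rfl, rfl, rfl, rfl, rfl⟩ |
    ⟨rfl, rfl, rfl, rfl, rfl, rfl, rfl, rfl⟩ | ⟨rfl, rfl, rfl, rfl, rfl, rfl, rfl, rfl⟩
  · exfalso
    obtain ⟨h3, h4⟩ := hb 6 (by norm_num) (by linarith)
    interval_cases D <;> omega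
  · exfalso
    obtain ⟨X, hX⟩ : ∃ X : ℤ, X = D ^ 2 := ⟨_, rfl⟩
    rw [← hX] at h1
    omega
  · exfalso
    obtain ⟨X, hX⟩ : ∃ X : ℤ, X = D ^ 2 := ⟨_, rfl⟩
    rw [← hX] at h1
    omega
  · obtain ⟨h3, h4⟩ := hb 2 (by norm_num) (by linarith)
    refine ⟨?_, rfl, rfl, rfl, rfl, rfl⟩
    interval_cases D <;> omega

/-- the assertion is monotone in the special case -/
theorem Thm.mono {A B A₁ B₁ d : ℤ} {w : ℕ} {sp sp' : Prop} {S₀ S₀' : Finset ℕ}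
    {Q : ∀ (ℓ : ℕ) (N : Type) [Field N] [NumberField N], WeierstrassCurve N → Prop}
    (h : sp' → sp) (hS : sp' → S₀ = S₀') (H : Thm A B A₁ B₁ d w sp S₀ Q) :
    Thm A B A₁ B₁ d w sp' S₀' Q := by
  intro K N₀ F₀ L₀ _ _ _ _ _ _ _ _ _ _ _ _ _ _ hK hz hN x y ht hxy hr hg
  obtain ⟨S, hS1, hS2⟩ := H K N₀ F₀ L₀ hK hz hN x y ht hxy hr
    (fun hn => hg fun h1 => hn ⟨h h1.1, h1.2⟩)
  exact ⟨S, fun h1 => by rw [hS1 ⟨h h1.1, h1.2⟩, hS h1.1], hS2⟩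

/-- the special curves are no curves of the nine maximal orders, except the first -/
theorem nine_spec {A B J d : ℤ} (hj : 6912 * A ^ 3 = J * (4 * A ^ 3 + 27 * B ^ 2))
    (hJ : (J, d) ∈ nine) : ¬ (A = -480 ∧ B = 4048) := by
  rintro ⟨rfl, rfl⟩
  simp only [nine, List.mem_cons, Prod.mk.injEq, List.not_mem_nil, or_false] at hJ
  rcases hJ with ⟨rfl, rfl⟩ | ⟨rfl, rfl⟩ | ⟨rfl, rfl⟩ | ⟨rfl, rfl⟩ | ⟨rfl, rfl⟩ | ⟨rfl, rfl⟩ |
    ⟨rfl, rfl⟩ | ⟨rfl, rfl⟩ | ⟨rfl, rfl⟩ <;> norm_num at hj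

/-- the prime numbers dividing the discriminant of the special curve -/
theorem pf_spec : (6 * (-3 : ℤ) * (4 * (-120 * 2 ^ 2) ^ 3 +
    27 * (506 * 2 ^ 3) ^ 2)).natAbs.primeFactors = {2, 3} := by
  have e : (6 * (-3 : ℤ) * (4 * (-120 * 2 ^ 2) ^ 3 + 27 * (506 * 2 ^ 3) ^ 2)).natAbs =
      2 ^ 9 * 3 ^ 7 := by norm_num
  rw [e, Nat.primeFactors_mul (by norm_num) (by norm_num),
    Nat.primeFactors_prime_pow (by norm_num) Nat.prime_two,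
    Nat.primeFactors_prime_pow (by norm_num) Nat.prime_three]
  rfl

/-- the theorem for the thirteen orders, first question -/
theorem all1 (H : ∀ A B J d : ℤ, 4 * A ^ 3 + 27 * B ^ 2 ≠ 0 →
      6912 * A ^ 3 = J * (4 * A ^ 3 + 27 * B ^ 2) → (J, d) ∈ nine →
      Thm A B (cA A B d) (B * d ^ 3) d (if d = -3 then 6 else 2) (A = 0 ∧ B = 16) {3}
        (fun _ => Con1))
    (A B J d : ℤ) (hAB : 4 * A ^ 3 + 27 * B ^ 2 ≠ 0)
    (hj : 6912 * A ^ 3 = J * (4 * A ^ 3 + 27 * B ^ 2)) (hJ : (J, d) ∈ thirteen) :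
    Thm A B (cA A B d) (B * d ^ 3) d (if d = -3 then 6 else 2)
      ((A = 0 ∧ B = 16) ∨ (A = -480 ∧ B = 4048)) {3} (fun _ => Con1) := by
  rcases thirteen_cases hJ with h9 | ⟨a', b', a, b, n, j, h⟩
  · exact (H A B J d hAB hj h9).mono (fun hs => hs.resolve_right (nine_spec hj h9)) fun _ => rfl
  · obtain ⟨D, hD, rfl, rfl⟩ := h.int A B hAB hj
    have hw : 2 ∣ (if d = -3 then 6 else 2) := by
      split_ifs <;> norm_num
    refine h.thm1 D hD _ hw (a * D ^ 2 = 0 ∧ b * D ^ 3 = 16) _ ?_ {3}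
      (H (a * D ^ 2) (b * D ^ 3) j d (h.discV D hD) (h.jV D) h.jnine)
    intro hs
    obtain ⟨rfl, rfl, rfl, rfl, rfl, rfl⟩ := h.spec D hD hs
    norm_num

/-- the theorem for the thirteen orders, second question -/
theorem all2 [Pool.Agent.Lib.MP_1a91b9_nuT.CD] (H : ∀ A B J d : ℤ, 4 * A ^ 3 + 27 * B ^ 2 ≠ 0 →
      6912 * A ^ 3 = J * (4 * A ^ 3 + 27 * B ^ 2) → (J, d) ∈ nine →
      Thm A B (cA A B d) (B * d ^ 3) d (if d = -3 then 6 else 2) (A = 0 ∧ B = 16) {3} Con2')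
    (A B J d : ℤ) (hAB : 4 * A ^ 3 + 27 * B ^ 2 ≠ 0)
    (hj : 6912 * A ^ 3 = J * (4 * A ^ 3 + 27 * B ^ 2)) (hJ : (J, d) ∈ thirteen) :
    Thm A B (cA A B d) (B * d ^ 3) d (if d = -3 then 6 else 2)
      ((A = 0 ∧ B = 16) ∨ (A = -480 ∧ B = 4048)) (if A = 0 then {3} else {2, 3}) Con2' := by
  rcases thirteen_cases hJ with h9 | ⟨a', b', a, b, n, j, h⟩
  · refine (H A B J d hAB hj h9).mono (fun hs => hs.resolve_right (nine_spec hj h9)) fun hs => ?_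
    rw [if_pos (hs.resolve_right (nine_spec hj h9)).1]
  · obtain ⟨D, hD, rfl, rfl⟩ := h.int A B hAB hj
    have hw : 2 ∣ (if d = -3 then 6 else 2) := by
      split_ifs <;> norm_num
    refine h.thm2 D hD _ hw (a * D ^ 2 = 0 ∧ b * D ^ 3 = 16) _ ?_ {3} _ ?_
      (H (a * D ^ 2) (b * D ^ 3) j d (h.discV D hD) (h.jV D) h.jnine)
    · intro hs
      obtain ⟨rfl, rfl, rfl, rfl, rfl, rfl⟩ := h.spec D hD hs
      norm_num
    · intro hs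
      have hne : a' * D ^ 2 ≠ 0 := mul_ne_zero h.ne.1 (pow_ne_zero 2 hD)
      rw [if_neg hne]
      obtain ⟨rfl, rfl, rfl, rfl, rfl, rfl⟩ := h.spec D hD hs
      rw [pf_spec]
      decide

end Pool.Agent.Lib.MP_1a91b9_nuI
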