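import Pool.Agent.Lib.MP_1a91b9_nuI.Fa.FamU
import Pool.Agent.Lib.MP_1a91b9_nuI.Fa.FamG

/-!
# Theorems on towers for all the forms of a curve: from the nine maximal orders to the thirteen orders
-/

set_option autoImplicit false

namespace Pool.Agent.Lib.MP_1a91b9_nuI

open NumberField IsDedekindDomain WeierstrassCurve Module

/-- The statement for towers and all the forms `W` of the curve `y² = x³ + A x + B`. -/
def TowV (ℓ : ℕ) (A B : ℤ) (F₀ : Type) [Field F₀] [NumberField F₀]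
    (Q : ∀ (N : Type) [Field N] [NumberField N], WeierstrassCurve N → Prop) : Prop :=
  ∀ (n : ℕ) (N L M : Type) [Field N] [NumberField N] [Field L] [NumberField L] [Field M]
    [NumberField M] [Algebra N L] [Algebra F₀ L] [Algebra L M] [Algebra F₀ M]
    [IsScalarTower F₀ L M] [IsGalois F₀ M], finrank F₀ M = ℓ ^ n → RamC ℓ A B F₀ L →
  ∀ (W : WeierstrassCurve N) (C : VariableChange L),
    C • W.baseChange L = ⟨0, 0, 0, ((A : ℤ) : L), ((B : ℤ) : L)⟩ → Q N W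

/-- The theorem on towers for `y² = x³ + A x + B`, the field `ℚ(√d)` and all the forms. -/
def ThmG (A B d : ℤ)
    (Q : ∀ (ℓ : ℕ) (N : Type) [Field N] [NumberField N], WeierstrassCurve N → Prop) : Prop :=
  ∀ (K N₀ F₀ L₀ : Type) [Field K] [NumberField K] [Field N₀] [NumberField N₀] [Field F₀]
    [NumberField F₀] [Field L₀] [NumberField L₀] [DecidableEq L₀] [Algebra K F₀] [Algebra N₀ F₀]
    [Algebra K L₀] [Algebra F₀ L₀] [IsScalarTower K F₀ L₀], finrank ℚ K = 2 →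
    (∃ z : K, z ^ 2 = (d : K)) →
    IntermediateField.adjoin N₀ (Set.range (algebraMap K F₀)) = ⊤ →
    ∀ x y : L₀, Tor (⟨0, 0, 0, ((A : ℤ) : L₀), ((B : ℤ) : L₀)⟩ : WeierstrassCurve L₀) x y →
    IntermediateField.adjoin K {x, y} = ⊤ →
    Lne (⟨0, 0, 0, ((A : ℤ) : N₀), ((B : ℤ) : N₀)⟩ : WeierstrassCurve N₀) →
    ∃ S : Finset ℕ, ∀ ℓ : ℕ, ℓ.Prime → ℓ ∉ S → TowV ℓ A B F₀ (Q ℓ)

/-- The theorem on towers; in the case `sp`, `F₀ = K` there is no hypothesis on the L-function and the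
exceptional set is `S₀`. -/
def ThmV (A B d : ℤ) (sp : Prop) (S₀ : Finset ℕ)
    (Q : ∀ (ℓ : ℕ) (N : Type) [Field N] [NumberField N], WeierstrassCurve N → Prop) : Prop :=
  ∀ (K N₀ F₀ L₀ : Type) [Field K] [NumberField K] [Field N₀] [NumberField N₀] [Field F₀]
    [NumberField F₀] [Field L₀] [NumberField L₀] [DecidableEq L₀] [Algebra K F₀] [Algebra N₀ F₀]
    [Algebra K L₀] [Algebra F₀ L₀] [IsScalarTower K F₀ L₀], finrank ℚ K = 2 →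
    (∃ z : K, z ^ 2 = (d : K)) →
    IntermediateField.adjoin N₀ (Set.range (algebraMap K F₀)) = ⊤ →
    ∀ x y : L₀, Tor (⟨0, 0, 0, ((A : ℤ) : L₀), ((B : ℤ) : L₀)⟩ : WeierstrassCurve L₀) x y →
    IntermediateField.adjoin K {x, y} = ⊤ →
    (¬ (sp ∧ finrank K F₀ = 1) →
      Lne (⟨0, 0, 0, ((A : ℤ) : N₀), ((B : ℤ) : N₀)⟩ : WeierstrassCurve N₀)) →
    ∃ S : Finset ℕ, (sp ∧ finrank K F₀ = 1 → S = S₀) ∧
      ∀ ℓ : ℕ, ℓ.Prime → ℓ ∉ S → TowV ℓ A B F₀ (Q ℓ)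

theorem ThmG.imp {A B d : ℤ}
    {Q Q' : ∀ (ℓ : ℕ) (N : Type) [Field N] [NumberField N], WeierstrassCurve N → Prop}
    (h : ∀ (ℓ : ℕ) (N : Type) [Field N] [NumberField N] (W : WeierstrassCurve N), Q ℓ N W →
      Q' ℓ N W) (H : ThmG A B d Q) : ThmG A B d Q' := by
  intro K N₀ F₀ L₀ _ _ _ _ _ _ _ _ _ _ _ _ _ _ hK hz hN x y ht hxy hg
  obtain ⟨S, hS⟩ := H K N₀ F₀ L₀ hK hz hN x y ht hxy hg
  refine ⟨S, fun ℓ hℓ hℓS => ?_⟩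
  intro n N L M _ _ _ _ _ _ _ _ _ _ _ _ hM hR W C hC
  exact h ℓ N W (hS ℓ hℓ hℓS n N L M hM hR W C hC)

/-- The two cases. -/
theorem thmV_of {A B A₁ B₁ d : ℤ} {w : ℕ} {sp : Prop} {S₀ : Finset ℕ}
    {Q : ∀ (ℓ : ℕ) (N : Type) [Field N] [NumberField N], WeierstrassCurve N → Prop}
    (H : Thm A B A₁ B₁ d w sp S₀ Q) (HG : ThmG A B d Q) : ThmV A B d sp S₀ Q := by
  intro K N₀ F₀ L₀ _ _ _ _ _ _ _ _ _ _ _ _ _ _ hK hz hN x y ht hxy hg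
  by_cases hs : sp ∧ finrank K F₀ = 1
  · have h1 : (finrank K F₀).Coprime w := by
      rw [hs.2]
      exact Nat.coprime_one_left w
    obtain ⟨S, hS1, hS2⟩ := H K N₀ F₀ L₀ hK hz hN x y ht hxy (fun hn => absurd h1 hn)
      (fun hn => absurd hs hn)
    refine ⟨S, hS1, fun ℓ hℓ hℓS => ?_⟩
    intro n N L M _ _ _ _ _ _ _ _ _ _ _ _ hM hR W C hC
    exact hS2 ℓ hℓ hℓS n N L M hM hR W C hC fun hn => absurd h1 hn
  · obtain ⟨S, hS⟩ := HG K N₀ F₀ L₀ hK hz hN x y ht hxy (hg hs)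
    exact ⟨S, fun h => absurd h hs, hS⟩

/-- a prime number which does not divide the discriminant is not ramified -/
theorem not_mem_sq {F : Type*} [Field F] [NumberField F] {ℓ : ℕ} (hℓ : ℓ.Prime)
    (hd : ¬ (ℓ : ℤ) ∣ discr F) (v : HeightOneSpectrum (𝓞 F)) : (ℓ : 𝓞 F) ∉ v.asIdeal ^ 2 := by
  intro h2
  have hp := Nat.prime_iff_prime_int.1 hℓ
  have hl0 : (ℓ : ℤ) ≠ 0 := hp.ne_zero
  have hmem : (ℓ : 𝓞 F) ∈ v.asIdeal := Ideal.pow_le_self two_ne_zero h2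
  have e : (((ℓ : ℤ)) : 𝓞 F) = (ℓ : 𝓞 F) := by push_cast; rfl
  have hP := v.isPrime
  have h1 := (not_dvd_discr_iff_forall_mem F (𝓞 F) hp).1 hd v.asIdeal hP (by rw [e]; exact hmem)
  have hlies : v.asIdeal.LiesOver (Ideal.span {(ℓ : ℤ)}) :=
    (Ideal.liesOver_span_iff hP.ne_top hp).mpr (by simpa using hmem)
  have hle : (Ideal.span {(ℓ : ℤ)}).map (algebraMap ℤ (𝓞 F)) ≤ v.asIdeal := by
    rw [Ideal.map_le_iff_le_comap, Ideal.span_singleton_le_iff_mem, Ideal.mem_comap]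
    simpa using hmem
  rw [← Ideal.ramificationIdx_eq_one_iff,
    ← Ideal.ramificationIdx'_eq_ramificationIdx (Ideal.span {(ℓ : ℤ)}) v.asIdeal
      (Ideal.span_singleton_eq_bot.not.mpr hl0)] at h1
  refine (Ideal.ramificationIdx'_ne_one_iff hle).2 ?_ h1
  rw [Ideal.map_span, Set.image_singleton, Ideal.span_singleton_le_iff_mem]
  simpa using h2

section
variable {a' b' a b : ℤ} {n : ℕ} {j' j d : ℤ}

/-- the transfer -/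
theorem Four.thmG (h : Four a' b' a b n j' j d) (D₀ : ℤ) (hD₀ : D₀ ≠ 0)
    (T : ∀ (F₀ : Type) [Field F₀] [NumberField F₀], Finset ℕ)
    (Q Q' : ∀ (ℓ : ℕ) (N : Type) [Field N] [NumberField N], WeierstrassCurve N → Prop)
    (hQ : ∀ (F₀ : Type) [Field F₀] [NumberField F₀] (ℓ : ℕ), ℓ.Prime → ℓ ∉ T F₀ →
      ∀ (N L : Type) [Field N] [NumberField N] [Field L] [NumberField L] [Algebra N L]
      [Algebra F₀ L], RamC ℓ (a' * D₀ ^ 2) (b' * D₀ ^ 3) F₀ L →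
      ∀ (W : WeierstrassCurve N) (D : N), D ≠ 0 →
      (∃ C : VariableChange N, C • W = cv (a' * D ^ 2) (b' * D ^ 3)) →
      (∃ C : VariableChange L, C • (cv (a' * D ^ 2) (b' * D ^ 3)).baseChange L =
        cv ((a' * D₀ ^ 2 : ℤ) : L) ((b' * D₀ ^ 3 : ℤ) : L)) →
      Q ℓ N (cv (a * D ^ 2) (b * D ^ 3)) → Q' ℓ N W)
    (H : ThmG (a * D₀ ^ 2) (b * D₀ ^ 3) d Q) :
    ThmG (a' * D₀ ^ 2) (b' * D₀ ^ 3) d Q' := by
  intro K N₀ F₀ L₀ _ _ _ _ _ _ _ _ _ _ _ _ _ _ hK hz hN x y ht hxy hg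
  obtain ⟨L, i1, i2, i3, i4, φ, x₁, y₁, ht₁, hxy₁⟩ := h.tors D₀ hD₀ x y ht hxy
  have i5 : NumberField L := NumberField.of_module_finite K L
  let aFL : Algebra F₀ L := ((φ : L₀ →+* L).comp (algebraMap F₀ L₀)).toAlgebra
  have i6 : IsScalarTower K F₀ L := by
    refine IsScalarTower.of_algebraMap_eq fun k => ?_
    show algebraMap K L k = φ (algebraMap F₀ L₀ (algebraMap K F₀ k))
    rw [← IsScalarTower.algebraMap_apply K F₀ L₀]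
    exact (φ.commutes k).symm
  obtain ⟨S, hS⟩ := H K N₀ F₀ L hK hz hN x₁ y₁ ht₁ hxy₁ (h.lne D₀ hg)
  refine ⟨S ∪ T F₀, fun ℓ hℓ hℓS => ?_⟩
  rw [Finset.mem_union, not_or] at hℓS
  intro m N L' M _ _ _ _ _ _ _ _ _ _ _ _ hM hR W C hC
  have hDL : (D₀ : L') ≠ 0 := by exact_mod_cast hD₀
  have hC' : C • W.baseChange L' = cv ((a' : L') * (D₀ : L') ^ 2) ((b' : L') * (D₀ : L') ^ 3) := by
    rw [hC]
    push_cast
    rfl
  obtain ⟨D, hD, ⟨C₁, hC₁⟩, -, C₂, hC₂⟩ := h.cls W C (D₀ : L') hDL hC'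
  refine hQ F₀ ℓ hℓ hℓS.2 N L' hR W D hD ⟨C₁, hC₁⟩ ?_
    (hS ℓ hℓ hℓS.1 m N L' M hM (h.ramC D₀ hR) _ C₂ ?_)
  · refine ⟨C * (C₁.map (algebraMap N L'))⁻¹, ?_⟩
    have e : (cv ((a' : N) * D ^ 2) (b' * D ^ 3)).baseChange L' =
        C₁.map (algebraMap N L') • W.baseChange L' := by
      rw [← hC₁]
      exact (bc_change W (C₁ • W) C₁ rfl L').symm
    rw [e, mul_smul, inv_smul_smul]
    exact hC
  · rw [hC₂]
    push_cast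
    rfl

/-- the first question -/
theorem Four.thmG1 (h : Four a' b' a b n j' j d) (D₀ : ℤ) (hD₀ : D₀ ≠ 0)
    (H : ThmG (a * D₀ ^ 2) (b * D₀ ^ 3) d (fun _ => Con1)) :
    ThmG (a' * D₀ ^ 2) (b' * D₀ ^ 3) d (fun _ => Con1) :=
  h.thmG D₀ hD₀ (fun _ _ _ => ∅) (fun _ => Con1) (fun _ => Con1)
    (fun _ _ _ _ _ _ N _ _ _ _ _ _ _ _ W D hD hW _ hQ => h.q1 N W D hD hW hQ) H

/-- the second question -/
theorem Four.thmG2 [Pool.Agent.Lib.MP_1a91b9_nuT.CD] (h : Four a' b' a b n j' j d) (D₀ : ℤ)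
    (hD₀ : D₀ ≠ 0) (H : ThmG (a * D₀ ^ 2) (b * D₀ ^ 3) d Con2') :
    ThmG (a' * D₀ ^ 2) (b' * D₀ ^ 3) d Con2' := by
  refine h.thmG D₀ hD₀ (fun F₀ _ _ => (6 * discr F₀ * (4 * (a' * D₀ ^ 2) ^ 3 +
    27 * (b' * D₀ ^ 3) ^ 2)).natAbs.primeFactors) Con2' Con2' ?_ H
  intro F₀ _ _ ℓ hℓ hT N L _ _ _ _ _ _ hR W D hD hW hW' hQ hf
  have hne : 6 * discr F₀ * (4 * (a' * D₀ ^ 2) ^ 3 + 27 * (b' * D₀ ^ 3) ^ 2) ≠ 0 :=
    mul_ne_zero (mul_ne_zero (by norm_num) (discr_ne_zero F₀)) (h.discne D₀ hD₀)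
  have hg : ¬ (ℓ : ℤ) ∣ 6 * discr F₀ * (4 * (a' * D₀ ^ 2) ^ 3 + 27 * (b' * D₀ ^ 3) ^ 2) := by
    intro h1
    exact hT (Nat.mem_primeFactors.2 ⟨hℓ, Int.natCast_dvd.1 h1, Int.natAbs_ne_zero.2 hne⟩)
  have hg6 : ¬ (ℓ : ℤ) ∣ 6 * (4 * (a' * D₀ ^ 2) ^ 3 + 27 * (b' * D₀ ^ 3) ^ 2) := by
    rintro ⟨c, hc⟩
    exact hg ⟨discr F₀ * c, by linear_combination discr F₀ * hc⟩
  have hgd : ¬ (ℓ : ℤ) ∣ discr F₀ := by
    rintro ⟨c, hc⟩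
    exact hg ⟨6 * c * (4 * (a' * D₀ ^ 2) ^ 3 + 27 * (b' * D₀ ^ 3) ^ 2), by rw [hc]; ring⟩
  have h2 : ℓ ≠ 2 := by
    rintro rfl
    exact hg6 ⟨3 * (4 * (a' * D₀ ^ 2) ^ 3 + 27 * (b' * D₀ ^ 3) ^ 2), by push_cast; ring⟩
  have h3 : ℓ ≠ 3 := by
    rintro rfl
    exact hg6 ⟨2 * (4 * (a' * D₀ ^ 2) ^ 3 + 27 * (b' * D₀ ^ 3) ^ 2), by push_cast; ring⟩
  have h4 : ℓ ≠ 4 := by
    rintro rfl
    exact absurd hℓ (by decide)
  have h5 : 5 ≤ ℓ := by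
    have := hℓ.two_le
    omega
  obtain ⟨C₂, hC₂⟩ := hW'
  refine h.q2g h5 N W D hD hW (fun v hv => ?_) (hQ hf)
  exact good_tower hℓ (not_mem_sq hℓ hgd) (fun v w hvw => (hR v w hvw).1) (h.jeq D) hg6 C₂ hC₂ v hv

end

/-- the theorem for the thirteen orders, first question -/
theorem allG1 (H : ∀ A B J d : ℤ, 4 * A ^ 3 + 27 * B ^ 2 ≠ 0 →
      6912 * A ^ 3 = J * (4 * A ^ 3 + 27 * B ^ 2) → (J, d) ∈ nine →
      ThmG A B d (fun _ => Con1))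
    (A B J d : ℤ) (hAB : 4 * A ^ 3 + 27 * B ^ 2 ≠ 0)
    (hj : 6912 * A ^ 3 = J * (4 * A ^ 3 + 27 * B ^ 2)) (hJ : (J, d) ∈ thirteen) :
    ThmG A B d (fun _ => Con1) := by
  rcases thirteen_cases hJ with h9 | ⟨a', b', a, b, n, j, h⟩
  · exact H A B J d hAB hj h9
  · obtain ⟨D, hD, rfl, rfl⟩ := h.int A B hAB hj
    exact h.thmG1 D hD (H (a * D ^ 2) (b * D ^ 3) j d (h.discV D hD) (h.jV D) h.jnine)

/-- the theorem for the thirteen orders, second question -/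
theorem allG2 [Pool.Agent.Lib.MP_1a91b9_nuT.CD] (H : ∀ A B J d : ℤ, 4 * A ^ 3 + 27 * B ^ 2 ≠ 0 →
      6912 * A ^ 3 = J * (4 * A ^ 3 + 27 * B ^ 2) → (J, d) ∈ nine → ThmG A B d Con2')
    (A B J d : ℤ) (hAB : 4 * A ^ 3 + 27 * B ^ 2 ≠ 0)
    (hj : 6912 * A ^ 3 = J * (4 * A ^ 3 + 27 * B ^ 2)) (hJ : (J, d) ∈ thirteen) :
    ThmG A B d Con2' := by
  rcases thirteen_cases hJ with h9 | ⟨a', b', a, b, n, j, h⟩
  · exact H A B J d hAB hj h9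
  · obtain ⟨D, hD, rfl, rfl⟩ := h.int A B hAB hj
    exact h.thmG2 D hD (H (a * D ^ 2) (b * D ^ 3) j d (h.discV D hD) (h.jV D) h.jnine)

end Pool.Agent.Lib.MP_1a91b9_nuI
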