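import Pool.Agent.Lib.MP_1a91b9_nuI.Fa.FamC
import Pool.Agent.Lib.MP_1a91b9_nuI.Fa.FamI
import Pool.Agent.Lib.MP_1a91b9_nuI.Fa.Cls

/-!
# Transfer of theorems on towers to an isogenous curve
-/

set_option autoImplicit false

namespace Pool.Agent.Lib.MP_1a91b9_nuI

open NumberField IsDedekindDomain WeierstrassCurve Module

/-- The condition on the ramification and the numbers of points. -/
def RamC (ℓ : ℕ) (A B : ℤ) (F₀ L : Type) [Field F₀] [NumberField F₀] [Field L] [NumberField L]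
    [Algebra F₀ L] : Prop :=
  ∀ (v : HeightOneSpectrum (𝓞 F₀)) (w : HeightOneSpectrum (𝓞 L)),
    v.asIdeal.map (algebraMap (𝓞 F₀) (𝓞 L)) ≤ w.asIdeal ^ 2 →
      (ℓ : 𝓞 F₀) ∉ v.asIdeal ∧ (((6 * (4 * A ^ 3 + 27 * B ^ 2) : ℤ) : 𝓞 F₀) ∉ v.asIdeal →
        ¬ ℓ ∣ Nat.card (⟨0, 0, 0, ((A : ℤ) : 𝓞 F₀ ⧸ v.asIdeal), ((B : ℤ) : 𝓞 F₀ ⧸ v.asIdeal)⟩ :
          WeierstrassCurve (𝓞 F₀ ⧸ v.asIdeal)).toAffine.Point)

/-- The statement for towers. -/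
def Tow (ℓ : ℕ) (A B A₁ B₁ : ℤ) (w : ℕ) (K F₀ : Type) [Field K] [Field F₀] [NumberField F₀]
    [Algebra K F₀] (Q : ∀ (N : Type) [Field N] [NumberField N], WeierstrassCurve N → Prop) :
    Prop :=
  ∀ (n : ℕ) (N L M : Type) [Field N] [NumberField N] [Field L] [NumberField L] [Field M]
    [NumberField M] [Algebra N L] [Algebra F₀ L] [Algebra L M] [Algebra F₀ M]
    [IsScalarTower F₀ L M] [IsGalois F₀ M], finrank F₀ M = ℓ ^ n → RamC ℓ A B F₀ L →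
  ∀ (W : WeierstrassCurve N) (C : VariableChange L),
    C • W.baseChange L = ⟨0, 0, 0, ((A : ℤ) : L), ((B : ℤ) : L)⟩ →
    (¬ (finrank K F₀).Coprime w →
      (∃ C' : VariableChange N, C' • W = ⟨0, 0, 0, ((A : ℤ) : N), ((B : ℤ) : N)⟩) ∨
      ∃ C' : VariableChange N, C' • W = ⟨0, 0, 0, ((A₁ : ℤ) : N), ((B₁ : ℤ) : N)⟩) →
    Q N W

section
variable {a' b' a b : ℤ} {n : ℕ} {j' j d : ℤ}

/-- the discriminants -/
theorem Four.disc (h : Four a' b' a b n j' j d) (D : ℤ) : ∃ c : ℤ,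
    (4 * (a' * D ^ 2) ^ 3 + 27 * (b' * D ^ 3) ^ 2) =
      c * (4 * (a * D ^ 2) ^ 3 + 27 * (b * D ^ 3) ^ 2) ∧ c ∣ 6 ^ 4 := by
  rcases h with ⟨rfl, rfl, rfl, rfl, rfl, rfl, rfl, rfl⟩ | ⟨rfl, rfl, rfl, rfl, rfl, rfl, rfl, rfl⟩ |
    ⟨rfl, rfl, rfl, rfl, rfl, rfl, rfl, rfl⟩ | ⟨rfl, rfl, rfl, rfl, rfl, rfl, rfl, rfl⟩
  · exact ⟨-16, by ring, by decide⟩
  · exact ⟨8, by ring, by decide⟩
  · exact ⟨-1, by ring, by decide⟩
  · exact ⟨9, by ring, by decide⟩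

theorem Four.ramC (h : Four a' b' a b n j' j d) (D : ℤ) {ℓ : ℕ} {F₀ L : Type} [Field F₀]
    [NumberField F₀] [Field L] [NumberField L] [Algebra F₀ L]
    (hR : RamC ℓ (a' * D ^ 2) (b' * D ^ 3) F₀ L) : RamC ℓ (a * D ^ 2) (b * D ^ 3) F₀ L := by
  intro v w hvw
  obtain ⟨h1, h2⟩ := hR v w hvw
  refine ⟨h1, fun h3 => ?_⟩
  obtain ⟨c, hc, hc6⟩ := h.disc D
  have hv : v.asIdeal.IsPrime := v.isPrime
  have h6 : (6 : 𝓞 F₀) ∉ v.asIdeal := by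
    intro h6
    apply h3
    push_cast
    exact Ideal.mul_mem_right _ _ h6
  have h3' : ((4 * (a * D ^ 2) ^ 3 + 27 * (b * D ^ 3) ^ 2 : ℤ) : 𝓞 F₀) ∉ v.asIdeal := by
    intro h4
    apply h3
    rw [Int.cast_mul]
    exact Ideal.mul_mem_left _ _ h4
  have hcv : (c : 𝓞 F₀) ∉ v.asIdeal := by
    intro h4
    obtain ⟨e, he⟩ := hc6
    apply h6
    apply hv.mem_of_pow_mem 4
    have h5 : (6 : 𝓞 F₀) ^ 4 = (c : 𝓞 F₀) * (e : 𝓞 F₀) := by
      exact_mod_cast congrArg (Int.cast : ℤ → 𝓞 F₀) he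
    rw [h5]
    exact Ideal.mul_mem_right _ _ h4
  have h4 : ((4 * (a' * D ^ 2) ^ 3 + 27 * (b' * D ^ 3) ^ 2 : ℤ) : 𝓞 F₀) ∉ v.asIdeal := by
    rw [hc, Int.cast_mul]
    intro h5
    rcases hv.mem_or_mem h5 with h7 | h7
    · exact hcv h7
    · exact h3' h7
  have h5 : ((6 * (4 * (a' * D ^ 2) ^ 3 + 27 * (b' * D ^ 3) ^ 2) : ℤ) : 𝓞 F₀) ∉ v.asIdeal := by
    rw [Int.cast_mul]
    intro h5
    rcases hv.mem_or_mem h5 with h7 | h7
    · exact h6 (by exact_mod_cast h7)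
    · exact h4 h7
  have h8 := h2 h5
  have hm : v.asIdeal.IsMaximal := v.isMaximal
  let _ : Field (𝓞 F₀ ⧸ v.asIdeal) := Ideal.Quotient.field _
  have i2 : Finite (𝓞 F₀ ⧸ v.asIdeal) := Ideal.finiteQuotientOfFreeOfNeBot _ v.ne_bot
  have h6' : (6 : 𝓞 F₀ ⧸ v.asIdeal) ≠ 0 := by
    intro h0
    apply h6
    rw [← Ideal.Quotient.eq_zero_iff_mem, map_ofNat]
    exact h0
  have hΔ : 4 * ((a' : 𝓞 F₀ ⧸ v.asIdeal) * (D : 𝓞 F₀ ⧸ v.asIdeal) ^ 2) ^ 3 +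
      27 * ((b' : 𝓞 F₀ ⧸ v.asIdeal) * (D : 𝓞 F₀ ⧸ v.asIdeal) ^ 3) ^ 2 ≠ 0 := by
    intro h0
    apply h4
    rw [← Ideal.Quotient.eq_zero_iff_mem, map_intCast]
    exact_mod_cast h0
  have h9 := h.card h6' (D : 𝓞 F₀ ⧸ v.asIdeal) hΔ
  have e1 : (⟨0, 0, 0, ((a' * D ^ 2 : ℤ) : 𝓞 F₀ ⧸ v.asIdeal),
      ((b' * D ^ 3 : ℤ) : 𝓞 F₀ ⧸ v.asIdeal)⟩ : WeierstrassCurve (𝓞 F₀ ⧸ v.asIdeal)) =
      cv ((a' : 𝓞 F₀ ⧸ v.asIdeal) * (D : 𝓞 F₀ ⧸ v.asIdeal) ^ 2)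
        ((b' : 𝓞 F₀ ⧸ v.asIdeal) * (D : 𝓞 F₀ ⧸ v.asIdeal) ^ 3) := by
    push_cast
    rfl
  have e2 : (⟨0, 0, 0, ((a * D ^ 2 : ℤ) : 𝓞 F₀ ⧸ v.asIdeal),
      ((b * D ^ 3 : ℤ) : 𝓞 F₀ ⧸ v.asIdeal)⟩ : WeierstrassCurve (𝓞 F₀ ⧸ v.asIdeal)) =
      cv ((a : 𝓞 F₀ ⧸ v.asIdeal) * (D : 𝓞 F₀ ⧸ v.asIdeal) ^ 2)
        ((b : 𝓞 F₀ ⧸ v.asIdeal) * (D : 𝓞 F₀ ⧸ v.asIdeal) ^ 3) := by
    push_cast
    rfl
  rw [e1] at h8
  rw [e2, ← h9]
  exact h8

theorem Four.nonsq (h : Four a' b' a b n j' j d) (q : ℚ) : q ^ 2 ≠ (d : ℚ) := by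
  have hd : d < 0 := by
    rcases h with ⟨_, _, _, _, _, _, _, rfl⟩ | ⟨_, _, _, _, _, _, _, rfl⟩ |
      ⟨_, _, _, _, _, _, _, rfl⟩ | ⟨_, _, _, _, _, _, _, rfl⟩ <;> norm_num
  have hd' : (d : ℚ) < 0 := by exact_mod_cast hd
  intro h1
  nlinarith [sq_nonneg q]

/-- The transfer. -/
theorem Four.tow (h : Four a' b' a b n j' j d) (D₀ : ℤ) (hD₀ : D₀ ≠ 0) (ℓ w : ℕ)
    (hℓ : ℓ.Prime) (hw2 : 2 ∣ w) (K F₀ : Type) [Field K] [NumberField K] [Field F₀]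
    [NumberField F₀] [Algebra K F₀] (hK : finrank ℚ K = 2) (z : K) (hz : z ^ 2 = (d : K))
    (Q Q' : ∀ (N : Type) [Field N] [NumberField N], WeierstrassCurve N → Prop)
    (hQ : ∀ (N : Type) [Field N] [NumberField N] (W : WeierstrassCurve N) (D : N), D ≠ 0 →
      (∃ C : VariableChange N, C • W = cv (a' * D ^ 2) (b' * D ^ 3)) →
      (ℓ ≠ 2 → ∃ D₁ : ℤ, (D₁ = D₀ ∨ D₁ = D₀ * d) ∧
        ∃ C : VariableChange N, C • W = cv (a' * (D₁ : N) ^ 2) (b' * (D₁ : N) ^ 3)) →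
      Q N (cv (a * D ^ 2) (b * D ^ 3)) → Q' N W)
    (H : Tow ℓ (a * D₀ ^ 2) (b * D₀ ^ 3)
      (if b * D₀ ^ 3 = 0 then -4 * (a * D₀ ^ 2) else a * D₀ ^ 2 * d ^ 2)
      (b * D₀ ^ 3 * d ^ 3) w K F₀ Q) :
    Tow ℓ (a' * D₀ ^ 2) (b' * D₀ ^ 3)
      (if b' * D₀ ^ 3 = 0 then -4 * (a' * D₀ ^ 2) else a' * D₀ ^ 2 * d ^ 2)
      (b' * D₀ ^ 3 * d ^ 3) w K F₀ Q' := by
  intro m N L M _ _ _ _ _ _ _ _ _ _ _ _ hM hR W C hC hW
  have hR' := h.ramC D₀ hR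
  have hb' : b' * D₀ ^ 3 ≠ 0 := mul_ne_zero h.ne.2 (pow_ne_zero 3 hD₀)
  rw [if_neg hb'] at hW
  have hDL : (D₀ : L) ≠ 0 := by exact_mod_cast hD₀
  have eL : (⟨0, 0, 0, ((a * D₀ ^ 2 : ℤ) : L), ((b * D₀ ^ 3 : ℤ) : L)⟩ : WeierstrassCurve L) =
      cv ((a : L) * (D₀ : L) ^ 2) ((b : L) * (D₀ : L) ^ 3) := by
    push_cast
    rfl
  by_cases hco : (finrank K F₀).Coprime w
  · have hC' : C • W.baseChange L = cv ((a' : L) * (D₀ : L) ^ 2) ((b' : L) * (D₀ : L) ^ 3) := by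
      rw [hC]
      push_cast
      rfl
    obtain ⟨D, hD, ⟨C₁, hC₁⟩, ⟨y, hy⟩, C₂, hC₂⟩ := h.cls W C (D₀ : L) hDL hC'
    refine hQ N W D hD ⟨C₁, hC₁⟩ (fun hℓ2 => ?_)
      (H m N L M hM hR' _ C₂ (by rw [hC₂, eL]) fun hn => absurd hco hn)
    have hDN : (D₀ : N) ≠ 0 := by exact_mod_cast hD₀
    let aKM : Algebra K M := ((algebraMap F₀ M).comp (algebraMap K F₀)).toAlgebra
    have t2 : IsScalarTower K F₀ M := IsScalarTower.of_algebraMap_eq fun x => rfl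
    let aNM : Algebra N M := ((algebraMap L M).comp (algebraMap N L)).toAlgebra
    have t3 : IsScalarTower N L M := IsScalarTower.of_algebraMap_eq fun x => rfl
    have f1 : FiniteDimensional K M := Module.Finite.right ℚ K M
    have f2 : FiniteDimensional N M := Module.Finite.right ℚ N M
    have hodd : ¬ 2 ∣ finrank K M := by
      rw [← finrank_mul_finrank K F₀ M, hM, Nat.prime_two.dvd_mul]
      rintro (h1 | h1)
      · have h3 : 2 ∣ Nat.gcd (finrank K F₀) w := Nat.dvd_gcd h1 hw2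
        rw [hco] at h3
        exact absurd h3 (by decide)
      · exact hℓ2 ((Nat.prime_dvd_prime_iff_eq Nat.prime_two hℓ).1
          (Nat.prime_two.dvd_of_dvd_pow h1)).symm
    have hsq : (algebraMap L M y) ^ 2 = algebraMap N M (D / D₀) := by
      have e1 : algebraMap N M (D / D₀) = algebraMap L M (algebraMap N L (D / D₀)) := rfl
      rw [e1, map_div₀, hy, map_intCast, mul_div_assoc, div_self hDL, mul_one, map_pow]
    have hd := h.nonsq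
    rcases sq_class hK z d hz hd hodd (D / D₀) (algebraMap L M y) hsq with ⟨t, ht⟩ | ⟨t, ht⟩
    · have hDt : D = t ^ 2 * D₀ := by rw [← ht, div_mul_cancel₀ D hDN]
      have ht0 : t ≠ 0 := by
        rintro rfl
        apply hD
        rw [hDt]
        ring
      refine ⟨D₀, Or.inl rfl, ⟨Units.mk0 t ht0, 0, 0, 0⟩ * C₁, ?_⟩
      rw [mul_smul, hC₁, cv_scale, hDt, Units.val_inv_eq_inv_val, Units.val_mk0]
      have e4 : (t⁻¹ * t) ^ 4 = 1 := by rw [inv_mul_cancel₀ ht0, one_pow]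
      have e6 : (t⁻¹ * t) ^ 6 = 1 := by rw [inv_mul_cancel₀ ht0, one_pow]
      refine congrArg₂ cv ?_ ?_
      · linear_combination (a' * (D₀ : N) ^ 2) * e4
      · linear_combination (b' * (D₀ : N) ^ 3) * e6
    · have hDt : D = t ^ 2 * (D₀ * d) := by
        have h1 : D = D / D₀ * D₀ := (div_mul_cancel₀ D hDN).symm
        rw [h1, ht]
        ring
      have ht0 : t ≠ 0 := by
        rintro rfl
        apply hD
        rw [hDt]
        ring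
      refine ⟨D₀ * d, Or.inr rfl, ⟨Units.mk0 t ht0, 0, 0, 0⟩ * C₁, ?_⟩
      rw [mul_smul, hC₁, cv_scale, hDt, Units.val_inv_eq_inv_val, Units.val_mk0]
      have e4 : (t⁻¹ * t) ^ 4 = 1 := by rw [inv_mul_cancel₀ ht0, one_pow]
      have e6 : (t⁻¹ * t) ^ 6 = 1 := by rw [inv_mul_cancel₀ ht0, one_pow]
      push_cast
      refine congrArg₂ cv ?_ ?_
      · linear_combination (a' * ((D₀ : N) * d) ^ 2) * e4
      · linear_combination (b' * ((D₀ : N) * d) ^ 3) * e6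
  · rcases hW hco with ⟨C', hC'⟩ | ⟨C', hC'⟩
    · have hDN : (D₀ : N) ≠ 0 := by exact_mod_cast hD₀
      have hC'' : C' • W = cv (a' * (D₀ : N) ^ 2) (b' * (D₀ : N) ^ 3) := by
        rw [hC']
        push_cast
        rfl
      refine hQ N W (D₀ : N) hDN ⟨C', hC''⟩ (fun _ => ⟨D₀, Or.inl rfl, C', hC''⟩)
        (H m N L M hM hR' _ 1 ?_ fun _ => Or.inl ⟨1, ?_⟩)
      · rw [one_smul, eL, WeierstrassCurve.baseChange, cv_map]
        simp only [map_mul, map_pow, map_intCast]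
      · rw [one_smul]
        push_cast
        rfl
    · have hd : d ≠ 0 := by
        rcases h with ⟨_, _, _, _, _, _, _, rfl⟩ | ⟨_, _, _, _, _, _, _, rfl⟩ |
          ⟨_, _, _, _, _, _, _, rfl⟩ | ⟨_, _, _, _, _, _, _, rfl⟩ <;> norm_num
      have hDN : ((D₀ * d : ℤ) : N) ≠ 0 := by exact_mod_cast mul_ne_zero hD₀ hd
      obtain ⟨y, hy⟩ : ∃ y : L, y ^ 2 = (d : L) := by
        refine ⟨algebraMap F₀ L (algebraMap K F₀ z), ?_⟩
        rw [← map_pow, ← map_pow, hz, map_intCast, map_intCast]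
      have hy0 : y ≠ 0 := by
        rintro rfl
        have h1 : (d : L) = 0 := by rw [← hy]; ring
        exact hd (by exact_mod_cast h1)
      have hC'' : C' • W = cv (a' * ((D₀ * d : ℤ) : N) ^ 2) (b' * ((D₀ * d : ℤ) : N) ^ 3) := by
        rw [hC']
        push_cast
        refine congrArg₂ cv ?_ ?_ <;> ring
      refine hQ N W ((D₀ * d : ℤ) : N) hDN ⟨C', hC''⟩
        (fun _ => ⟨D₀ * d, Or.inr rfl, C', hC''⟩)
        (H m N L M hM hR' _ ⟨Units.mk0 y hy0, 0, 0, 0⟩ ?_ fun _ => ?_)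
      · rw [eL, WeierstrassCurve.baseChange, cv_map, cv_scale, Units.val_inv_eq_inv_val,
          Units.val_mk0]
        simp only [map_mul, map_pow, map_intCast]
        have e4 : (y⁻¹ * y) ^ 4 = 1 := by rw [inv_mul_cancel₀ hy0, one_pow]
        have e6 : (y⁻¹ * y) ^ 6 = 1 := by rw [inv_mul_cancel₀ hy0, one_pow]
        push_cast
        rw [← hy]
        refine congrArg₂ cv ?_ ?_
        · linear_combination (a * (D₀ : L) ^ 2) * e4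
        · linear_combination (b * (D₀ : L) ^ 3) * e6
      · by_cases hb : b * D₀ ^ 3 = 0
        · left
          have hb0 : b = 0 := (mul_eq_zero.1 hb).resolve_right (pow_ne_zero 3 hD₀)
          have hd4 : d = -4 := by
            rcases h with ⟨_, _, _, hh, _, _, _, rfl⟩ | ⟨_, _, _, _, _, _, _, rfl⟩ |
              ⟨_, _, _, hh, _, _, _, rfl⟩ | ⟨_, _, _, hh, _, _, _, rfl⟩
            · rw [hb0] at hh; norm_num at hh
            · rfl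
            · rw [hb0] at hh; norm_num at hh
            · rw [hb0] at hh; norm_num at hh
          refine ⟨⟨Units.mk0 2 two_ne_zero, 0, 0, 0⟩, ?_⟩
          rw [cv_scale, hb0, hd4, Units.val_inv_eq_inv_val, Units.val_mk0]
          have e : ∀ x x' y y' : N, x = x' → y = y' →
            (⟨0, 0, 0, x, y⟩ : WeierstrassCurve N) = ⟨0, 0, 0, x', y'⟩ := by
            rintro x _ y _ rfl rfl
            rfl
          refine e _ _ _ _ ?_ ?_
          · push_cast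
            norm_num
            ring
          · push_cast
            ring
        · right
          refine ⟨1, ?_⟩
          rw [one_smul, if_neg hb]
          push_cast
          refine congrArg₂ cv ?_ ?_ <;> ring

end

end Pool.Agent.Lib.MP_1a91b9_nuI
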